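import Mathlib
import Pool.Agent.Work.MP_8efaaa_nt.R.BInt
import Pool.Agent.Work.MP_8efaaa_nt.R.AInt
import Pool.Agent.Work.MP_8efaaa_nt.R.SI

/-!
# K5/MxA: the largest of the three differences

`L ⊃ N` of index two. With the three values `e_A, e_B, e_D` of `wp N` at the points of order two,
`csq N A = (e_B - e_D) ^ 2`, `3 e_A = (e_A - e_B) + (e_A - e_D)`. `Mx V N A` says
`V (3 e_A) ^ 2 ≤ V (csq N A)`: the difference opposite to `A` is the largest of the three.
It is equivalent to `BGd V N A t`.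
-/

set_option autoImplicit false

namespace Pool.Agent.Work.MP_8efaaa_nt.K5

open Pool.Agent.Work.CM Pool.Agent.Work.MP_8efaaa_nt.R
open scoped Pointwise

variable {Γ : Type*} [LinearOrderedCommGroupWithZero Γ] {V : Valuation ℂ Γ}
  {N L A B D : Submodule ℤ ℂ}

/-- the difference opposite to `L` is the largest of the three -/
def Mx (V : Valuation ℂ Γ) (N L : Submodule ℤ ℂ) : Prop := V (3 * ev N L) ^ 2 ≤ V (csq N L)

/-- all three differences have the same size -/
def Gd3 (V : Valuation ℂ Γ) (N : Submodule ℤ ℂ) : Prop := ∀ A, Two N A → Mx V N A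

theorem quart (h : Two N L) {t : ℂ} (ht : 2 * t ∈ L) (ht' : 2 * t ∉ N) :
    sg N L t ^ 4 - 6 * ev N L * sg N L t ^ 2 + csq N L = 0 := by
  have htL : t ∉ L := fun h1 => ht' (h.two_mem h1)
  have hS : sg N L t ≠ 0 := si_quarter_ne h ht'
  have h1 := si_ode' h ht ht' htL
  rw [sub_self, zero_mul] at h1
  have h2 := si_ode h htL
  have h3 : deriv (sg N L) t ^ 2 = 0 := by
    rcases mul_eq_zero.1 h1 with h4 | h4
    · exact h4
    · exact absurd h4 (pow_ne_zero 2 hS)
  rw [← h2, h3]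

/-- in a totally ordered group with zero, a square is monotone -/
private theorem sq_le {x y : Γ} (h : x ^ 2 ≤ y ^ 2) : x ≤ y := by
  by_contra hc
  exact absurd h (not_le.2 (pow_lt_pow_left₀ (not_le.1 hc) zero_le two_ne_zero))

private theorem sq_lt {x y : Γ} (h : x < y) : x ^ 2 < y ^ 2 :=
  pow_lt_pow_left₀ h zero_le two_ne_zero

theorem exists_t (h : Two N L) : ∃ t : ℂ, 2 * t ∈ L ∧ 2 * t ∉ N := by
  obtain ⟨u, hu, hu', -⟩ := h.ex
  exact ⟨u / 2, by rwa [mul_div_cancel₀ u two_ne_zero], by rwa [mul_div_cancel₀ u two_ne_zero]⟩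

theorem bgd_iff (h : Two N L) (h2 : V 2 = 1) {t : ℂ} (ht : 2 * t ∈ L) (ht' : 2 * t ∉ N) :
    BGd V N L t ↔ Mx V N L := by
  have hS : sg N L t ≠ 0 := si_quarter_ne h ht'
  have hS0 : 0 < V (sg N L t) := zero_lt_iff.2 ((V.ne_zero_iff).2 hS)
  have hq := quart h ht ht'
  have e1 : 2 * (3 * ev N L) * sg N L t ^ 2 = sg N L t ^ 4 + csq N L := by linear_combination -hq
  have e2 : V (3 * ev N L) * V (sg N L t) ^ 2 = V (sg N L t ^ 4 + csq N L) := by
    rw [← e1, map_mul V (2 * (3 * ev N L)), map_mul V 2, h2, one_mul, map_pow]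
  constructor
  · intro hb
    have h3 : V (3 * ev N L) * V (sg N L t) ^ 2 ≤ V (sg N L t) ^ 2 * V (sg N L t) ^ 2 := by
      rw [e2, ← pow_add]
      refine V.map_add_le ?_ hb.hc.le
      rw [map_pow]
    have h4 := le_of_mul_le_mul_right h3 (pow_pos hS0 2)
    unfold Mx
    rw [hb.hc]
    calc V (3 * ev N L) ^ 2 ≤ (V (sg N L t) ^ 2) ^ 2 := pow_le_pow_left₀ zero_le h4 2
      _ = V (sg N L t) ^ 4 := by rw [← pow_mul]
  · intro hm
    unfold Mx at hm
    refine ⟨h, h2, ht, ht', ?_⟩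
    rcases lt_trichotomy (V (csq N L)) (V (sg N L t) ^ 4) with h3 | h3 | h3
    · exfalso
      rw [V.map_add_eq_of_lt_left (by rw [map_pow]; exact h3), map_pow] at e2
      have h4 : V (3 * ev N L) = V (sg N L t) ^ 2 := by
        have h5 : V (3 * ev N L) * V (sg N L t) ^ 2 = V (sg N L t) ^ 2 * V (sg N L t) ^ 2 := by
          rw [e2, ← pow_add]
        exact mul_right_cancel₀ (pow_ne_zero 2 hS0.ne') h5
      rw [h4, ← pow_mul] at hm
      exact absurd h3 (not_lt.2 hm)
    · exact h3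
    · exfalso
      rw [V.map_add_eq_of_lt_right (by rw [map_pow]; exact h3)] at e2
      have h5 : V (3 * ev N L) ^ 2 * V (sg N L t) ^ 4 = V (csq N L) ^ 2 := by
        rw [← e2, mul_pow, ← pow_mul]
      have hc0 : 0 < V (csq N L) := lt_of_le_of_lt zero_le h3
      have h6 : V (3 * ev N L) ^ 2 * V (sg N L t) ^ 4 ≤ V (csq N L) * V (sg N L t) ^ 4 :=
        mul_le_mul_left hm _
      have h7 : V (csq N L) * V (sg N L t) ^ 4 < V (csq N L) * V (csq N L) :=
        mul_lt_mul_of_pos_left h3 hc0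
      rw [h5, pow_two] at h6
      exact absurd h7 (not_lt.2 h6)

theorem csq_tri (hT : Tri L A B D) : csq L A = (ev L B - ev L D) ^ 2 := by
  have h1 := hT.sum
  obtain ⟨h2, -⟩ := hT.inv
  unfold csq
  rw [h2]
  have h3 : ev L A = -(ev L B + ev L D) := by linear_combination h1
  rw [h3]
  ring

theorem three_ev (hT : Tri L A B D) :
    3 * ev L A = (ev L A - ev L B) + (ev L A - ev L D) := by
  linear_combination hT.sum

/-- the three differences -/
theorem mx_iff (h2 : V 2 = 1) (hT : Tri L A B D) :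
    Mx V L A ↔ V (ev L A - ev L B) ≤ V (ev L B - ev L D) ∧
      V (ev L A - ev L D) ≤ V (ev L B - ev L D) := by
  unfold Mx
  rw [csq_tri hT, map_pow]
  constructor
  · intro h
    have h3 := sq_le h
    rw [three_ev hT] at h3
    have e1 : V (ev L A - ev L B) = V (2 * (ev L A - ev L B)) := by rw [map_mul, h2, one_mul]
    have e2 : V (ev L A - ev L D) = V (2 * (ev L A - ev L D)) := by rw [map_mul, h2, one_mul]
    constructor
    · rw [e1]
      have : 2 * (ev L A - ev L B) = ((ev L A - ev L B) + (ev L A - ev L D)) -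
          (ev L B - ev L D) := by ring
      rw [this]
      exact V.map_sub_le h3 le_rfl
    · rw [e2]
      have : 2 * (ev L A - ev L D) = ((ev L A - ev L B) + (ev L A - ev L D)) +
          (ev L B - ev L D) := by ring
      rw [this]
      exact V.map_add_le h3 le_rfl
  · rintro ⟨h3, h4⟩
    rw [three_ev hT]
    exact pow_le_pow_left₀ zero_le (V.map_add_le h3 h4) 2

theorem mx_or (h2 : V 2 = 1) (hT : Tri L A B D) : Mx V L A ∨ Mx V L B := by
  rw [mx_iff h2 hT, mx_iff h2 hT.rot]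
  by_cases h3 : V (ev L A - ev L B) ≤ V (ev L B - ev L D) ∧
      V (ev L A - ev L D) ≤ V (ev L B - ev L D)
  · exact Or.inl h3
  · right
    have hs1 : V (ev L D - ev L A) = V (ev L A - ev L D) := V.map_sub_swap _ _
    have hs2 : V (ev L B - ev L A) = V (ev L A - ev L B) := V.map_sub_swap _ _
    rw [hs1, hs2]
    have e : ev L A - ev L D = (ev L A - ev L B) + (ev L B - ev L D) := by ring
    have e' : ev L A - ev L B = (ev L A - ev L D) - (ev L B - ev L D) := by ring
    by_cases h4 : V (ev L A - ev L B) ≤ V (ev L B - ev L D)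
    · have h5 : V (ev L B - ev L D) < V (ev L A - ev L D) := by
        by_contra hc
        exact h3 ⟨h4, not_lt.1 hc⟩
      exact ⟨h5.le, h4.trans h5.le⟩
    · have h5 : V (ev L B - ev L D) < V (ev L A - ev L B) := not_le.1 h4
      have h6 : V (ev L A - ev L D) = V (ev L A - ev L B) := by
        rw [e, V.map_add_eq_of_lt_left h5]
      rw [h6]
      exact ⟨h5.le, le_rfl⟩

theorem mx_smul (h : Two N L) {m : ℂ} (hm : m ≠ 0) : Mx V (m • N) (m • L) ↔ Mx V N L := by
  unfold Mx
  have hV : V ((m ^ 4)⁻¹) ≠ 0 := (V.ne_zero_iff).2 (inv_ne_zero (pow_ne_zero 4 hm))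
  rw [(Two.smul hm h).2, bcsq_smul h hm, map_mul V _ (csq N L)]
  have e : V (3 * ((m ^ 2)⁻¹ * ev N L)) ^ 2 = V ((m ^ 4)⁻¹) * V (3 * ev N L) ^ 2 := by
    rw [← map_pow, ← map_pow, ← map_mul]
    congr 1
    field_simp
  rw [e]
  exact mul_le_mul_iff_right₀ (zero_lt_iff.2 hV)

theorem mx_down (h2 : V 2 = 1) (h : Two N L) (hT : Tri L (half N) B D) (hB : Mx V L B)
    (hD : Mx V L D) : Mx V N L := by
  obtain ⟨b1, b2⟩ := (mx_iff h2 hT.rot).1 hB
  obtain ⟨d1, d2⟩ := (mx_iff h2 hT.rot.rot).1 hD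
  have hs1 : V (ev L (half N) - ev L B) = V (ev L B - ev L (half N)) := V.map_sub_swap _ _
  have hs2 : V (ev L (half N) - ev L D) = V (ev L D - ev L (half N)) := V.map_sub_swap _ _
  have hs3 : V (ev L D - ev L B) = V (ev L B - ev L D) := V.map_sub_swap _ _
  unfold Mx
  rw [si_csq h hT, map_mul V (ev L (half N) - ev L B)]
  have e : V (3 * ev N L) = V (3 * ev L (half N)) := by
    rw [h.ev_half, map_mul, map_mul, map_mul, Valuation.map_neg, h2, one_mul]
  rw [e, three_ev hT, pow_two]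
  have h3 : V (ev L (half N) - ev L B) = V (ev L (half N) - ev L D) := by
    apply le_antisymm
    · rw [hs1, hs2]
      exact b2
    · rw [hs2]
      exact d1
  have h4 := V.map_add_le (le_refl (V (ev L (half N) - ev L B))) h3.symm.le
  exact mul_le_mul' h4 (h4.trans h3.le)

theorem tri_cases {A' : Submodule ℤ ℂ} (hT : Tri L A B D) (h : Two L A') :
    A' = A ∨ A' = B ∨ A' = D := by
  have h1 := h.cubic
  obtain ⟨i2, i3⟩ := hT.inv
  have h3 := hT.sum
  have key : (ev L A' - ev L A) * ((ev L A' - ev L B) * (ev L A' - ev L D)) = 0 := by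
    rw [i2, i3] at h1
    have h4 : ev L A = -(ev L B + ev L D) := by linear_combination h3
    rw [h4] at h1 ⊢
    linear_combination (1 / 4 : ℂ) * h1
  rcases mul_eq_zero.1 key with h4 | h4
  · left
    by_contra hc
    exact Two.ev_ne h hT.a hc (sub_eq_zero.1 h4)
  · rcases mul_eq_zero.1 h4 with h5 | h5
    · right; left
      by_contra hc
      exact Two.ev_ne h hT.b hc (sub_eq_zero.1 h5)
    · right; right
      by_contra hc
      exact Two.ev_ne h hT.d hc (sub_eq_zero.1 h5)

theorem gd_of_tri (hT : Tri L A B D) (hA : Mx V L A) (hB : Mx V L B) (hD : Mx V L D) :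
    Gd3 V L := by
  intro A' hA'
  rcases tri_cases hT hA' with rfl | rfl | rfl
  · exact hA
  · exact hB
  · exact hD

/-- the differences of a good lattice -/
theorem gd_eq (h2 : V 2 = 1) (hL : Gd3 V L) (hT : Tri L A B D) :
    V (ev L A - ev L B) = V (ev L B - ev L D) := by
  obtain ⟨a1, a2⟩ := (mx_iff h2 hT).1 (hL _ hT.a)
  obtain ⟨d1, d2⟩ := (mx_iff h2 hT.rot.rot).1 (hL _ hT.d)
  refine le_antisymm a1 ?_
  have hs : V (ev L D - ev L B) = V (ev L B - ev L D) := V.map_sub_swap _ _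
  rw [hs] at d2
  exact d2

theorem gd_down (h2 : V 2 = 1) (h : Two N L) (hL : Gd3 V L) : Gd3 V N := by
  -- the value at `L`
  obtain ⟨B, D, hT⟩ := exists_tri h.half_two
  have hNL : Mx V N L := mx_down h2 h hT (hL _ hT.b) (hL _ hT.d)
  obtain ⟨A, E, hT'⟩ := exists_tri h
  have hc := si_csq h hT
  have hc' := csq_tri hT'
  have g1 := gd_eq h2 hL hT
  have g2' := gd_eq h2 hL hT.rot
  have g3' := gd_eq h2 hL hT.rot.rot
  -- `x z = csq L (half N) / 16`
  have hxz : (ev N L - ev N A) * (ev N L - ev N E) * 16 = csq L (half N) := by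
    have h3 := bcsq_eq h
    have h4 := hT'.sum
    obtain ⟨i2, -⟩ := hT'.inv
    have h5 := h.ev_half
    unfold csq at h3 ⊢
    rw [h5] at h3 ⊢
    rw [i2] at h3
    have h6 : ev N L = -(ev N A + ev N E) := by linear_combination h4
    rw [h6] at h3 ⊢
    linear_combination -4 * h3
  have hV16 : V (16 : ℂ) = 1 := by
    have : (16 : ℂ) = 2 * 2 * 2 * 2 := by norm_num
    rw [this]
    simp [h2]
  have hswap : V (ev L D - ev L (half N)) = V (ev L (half N) - ev L D) := V.map_sub_swap _ _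
  have hxz' : V (ev N L - ev N A) * V (ev N L - ev N E) = V (ev N A - ev N E) ^ 2 := by
    have h3 : V ((ev N L - ev N A) * (ev N L - ev N E) * 16) = V (csq L (half N)) := by rw [hxz]
    rw [map_mul, hV16, mul_one, map_mul, csq_tri hT, map_pow] at h3
    rw [h3, ← map_pow V (ev N A - ev N E), ← hc', hc, map_mul, g1, ← hswap, ← g2', pow_two]
  -- the difference opposite to `L` is the largest
  obtain ⟨a1, a2⟩ := (mx_iff h2 hT').1 hNL
  have hpos : 0 < V (ev N A - ev N E) := zero_lt_iff.2 ((V.ne_zero_iff).2 hT'.rot.ne_ab)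
  have x1 : V (ev N L - ev N A) = V (ev N A - ev N E) := by
    refine le_antisymm a1 (not_lt.1 fun hlt => ?_)
    have h3 : V (ev N L - ev N A) * V (ev N L - ev N E) <
        V (ev N A - ev N E) * V (ev N A - ev N E) :=
      lt_of_le_of_lt (mul_le_mul_right a2 _) (mul_lt_mul_of_pos_right hlt hpos)
    rw [hxz', pow_two] at h3
    exact lt_irrefl _ h3
  have x2 : V (ev N L - ev N E) = V (ev N A - ev N E) := by
    refine le_antisymm a2 (not_lt.1 fun hlt => ?_)
    have h3 : V (ev N L - ev N A) * V (ev N L - ev N E) <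
        V (ev N A - ev N E) * V (ev N A - ev N E) :=
      lt_of_le_of_lt (mul_le_mul_left a1 _) (mul_lt_mul_of_pos_left hlt hpos)
    rw [hxz', pow_two] at h3
    exact lt_irrefl _ h3
  have hs1 : V (ev N A - ev N L) = V (ev N L - ev N A) := V.map_sub_swap _ _
  have hs2 : V (ev N E - ev N L) = V (ev N L - ev N E) := V.map_sub_swap _ _
  have hs3 : V (ev N E - ev N A) = V (ev N A - ev N E) := V.map_sub_swap _ _
  refine gd_of_tri hT' hNL ?_ ?_
  · rw [mx_iff h2 hT'.rot, hs1, hs2, x1, x2]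
    exact ⟨le_rfl, le_rfl⟩
  · rw [mx_iff h2 hT'.rot.rot, hs2, hs3, x1, x2]
    exact ⟨le_rfl, le_rfl⟩

end Pool.Agent.Work.MP_8efaaa_nt.K5
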