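import Mathlib
import Pool.Agent.Work.MP_8efaaa_nt.K5.MxA

/-!
# K5/MxStep: goodness is preserved by isogenies of odd prime degree

`s = sg N L`, `S = s t`. For `l ∤ j`, `V (s (t + j u)) V (s (t - j u)) = V S ^ 2`: if
`V S < V (s (j u))` by `bsg_pm`; otherwise `V (s (j u)) = V S` (`BGd.ge`) and
`V (s (t ± j u)) = V S` by duplication (`BGd.dbl`, `BGd.dbl'`, `BGd.large`). So the product of all
`s (t + j u)` has the value `V S ^ l`; `bsg_iso`, `bcsq_iso`.
-/

set_option autoImplicit false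

namespace Pool.Agent.Work.MP_8efaaa_nt.K5

open Pool.Agent.Work.CM Pool.Agent.Work.MP_8efaaa_nt.R
open scoped Pointwise

variable {Γ : Type*} [LinearOrderedCommGroupWithZero Γ] {V : Valuation ℂ Γ}
  {N L A B D : Submodule ℤ ℂ}

private theorem nat_mem {A : Submodule ℤ ℂ} {z : ℂ} (hz : z ∈ A) (n : ℕ) : (n : ℂ) * z ∈ A := by
  have h1 := A.smul_mem ((n : ℤ)) hz
  simpa [zsmul_eq_mul] using h1

private theorem pair_eq {t : ℂ} (h : BGd V N L t) {l : ℕ} (hl : l.Prime) (hl2 : l ≠ 2) {u : ℂ}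
    (hu : u ∉ N) (hlu : (l : ℂ) * u ∈ N) (ht : t ∉ L ⊔ Submodule.span ℤ {u}) {j : ℕ}
    (hj : ¬ l ∣ j) :
    V (sg N L (t + j * u)) * V (sg N L (t - j * u)) = V (sg N L t) ^ 2 := by
  have hju : (j : ℂ) * u ∉ L := bmul_nmem h.two hl hl2 hu hlu hj
  have hjN : (j : ℂ) * u ∉ N := fun h1 => hju (h.two.le h1)
  have h2j : ¬ l ∣ 2 * j := by
    intro hd
    rcases (Nat.Prime.dvd_mul hl).1 hd with h1 | h1
    · exact hl2 ((Nat.prime_dvd_prime_iff_eq hl Nat.prime_two).1 h1)
    · exact hj h1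
  have h2ju : 2 * ((j : ℂ) * u) ∉ L := by
    have h1 := bmul_nmem h.two hl hl2 hu hlu h2j
    push_cast at h1
    rwa [mul_assoc] at h1
  have hspan : (j : ℂ) * u ∈ Submodule.span ℤ {u} :=
    Submodule.mem_span_singleton.2 ⟨j, by simp⟩
  have hp : t + j * u ∉ L := fun hc => ht (by
    have h3 := Submodule.sub_mem _ (Submodule.mem_sup_left (T := Submodule.span ℤ {u}) hc)
      (Submodule.mem_sup_right (S := L) hspan)
    rwa [add_sub_cancel_right] at h3)
  have hm : t - j * u ∉ L := fun hc => ht (by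
    have h3 := Submodule.add_mem _ (Submodule.mem_sup_left (T := Submodule.span ℤ {u}) hc)
      (Submodule.mem_sup_right (S := L) hspan)
    rwa [sub_add_cancel] at h3)
  have htL : t ∉ L := fun hc => ht (Submodule.mem_sup_left hc)
  have hS0 : 0 < V (sg N L t) := zero_lt_iff.2 ((V.ne_zero_iff).2 h.ne)
  have hge : V (sg N L t) ≤ V (sg N L (j * u)) := by
    refine h.ge (hl.odd_of_ne_two hl2) hjN ?_
    have h1 : (l : ℂ) * ((j : ℂ) * u) = (j : ℂ) * ((l : ℂ) * u) := by ring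
    rw [h1]
    exact nat_mem hlu j
  rcases hge.lt_or_eq with hlt | heq
  · have hpm := congrArg V (bsg_pm h.two htL hju hp hm)
    rw [map_mul, map_mul] at hpm
    have e1 : V (sg N L t ^ 2 - sg N L (j * u) ^ 2) = V (sg N L (j * u)) ^ 2 := by
      rw [V.map_sub_eq_of_lt_right, map_pow]
      rw [map_pow, map_pow]
      exact pow_lt_pow_left₀ hlt zero_le two_ne_zero
    have e2 : V (csq N L - sg N L (j * u) ^ 2 * sg N L t ^ 2) =
        V (sg N L (j * u)) ^ 2 * V (sg N L t) ^ 2 := by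
      rw [V.map_sub_eq_of_lt_right, map_mul, map_pow, map_pow]
      rw [map_mul, map_pow, map_pow, h.hc]
      have h3 : V (sg N L t) ^ 4 = V (sg N L t) ^ 2 * V (sg N L t) ^ 2 := by rw [← pow_add]
      rw [h3]
      exact mul_lt_mul_of_pos_right (pow_lt_pow_left₀ hlt zero_le two_ne_zero) (pow_pos hS0 2)
    rw [e1, e2, mul_comm (V (sg N L (j * u)) ^ 2)] at hpm
    exact mul_right_cancel₀ (pow_ne_zero 2 (lt_trans hS0 hlt).ne') hpm
  · -- the values at the doubles
    have key : ∀ z : ℂ, 2 * z ∉ L → V (sg N L (2 * z)) = V (sg N L (2 * (j * u))) →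
        V (sg N L z) = V (sg N L t) := by
      intro z hz hval
      have hbig : V (sg N L t) < V (sg N L (2 * (j * u))) → False := by
        intro h3
        have h4 := h.large hl hl2 hu hlu h2j (by push_cast; rwa [mul_assoc]) hj
        exact absurd heq h4.ne
      rcases lt_trichotomy (V (sg N L z)) (V (sg N L t)) with h3 | h3 | h3
      · exact (hbig (hval ▸ h.dbl' hz h3)).elim
      · exact h3
      · exfalso
        apply hbig
        rw [← hval, h.dbl hz h3]
        exact h3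
    have hp2 : 2 * (t + j * u) ∉ L := by
      intro hc
      apply h2ju
      have h3 := sub_mem hc h.ht
      have e : 2 * (t + (j : ℂ) * u) - 2 * t = 2 * ((j : ℂ) * u) := by ring
      rwa [e] at h3
    have hm2 : 2 * (t - j * u) ∉ L := by
      intro hc
      apply h2ju
      have h3 := sub_mem h.ht hc
      have e : 2 * t - 2 * (t - (j : ℂ) * u) = 2 * ((j : ℂ) * u) := by ring
      rwa [e] at h3
    have k1 := key (t + j * u) hp2 (by
      have e : 2 * (t + (j : ℂ) * u) = 2 * ((j : ℂ) * u) + 2 * t := by ring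
      rw [e, bsg_add' h.two _ h.ht h.ht', Valuation.map_neg])
    have k2 := key (t - j * u) hm2 (by
      have e : 2 * (t - (j : ℂ) * u) = -(2 * ((j : ℂ) * u)) + 2 * t := by ring
      rw [e, bsg_add' h.two _ h.ht h.ht', bsg_neg h.two, neg_neg])
    rw [k1, k2, pow_two]

theorem bgd_step {t : ℂ} (h : BGd V N L t) {l : ℕ} (hl : l.Prime) (hl2 : l ≠ 2) {u : ℂ}
    (hu : u ∉ N) (hlu : (l : ℂ) * u ∈ N) :
    BGd V (N ⊔ Submodule.span ℤ {u}) (L ⊔ Submodule.span ℤ {u}) t := by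
  have htwo := btwo h.two hl hl2 hlu
  have hcop : l.Coprime 2 := (Nat.coprime_primes hl Nat.prime_two).2 hl2
  have ht' : 2 * t ∉ N ⊔ Submodule.span ℤ {u} := by
    intro hc
    refine h.ht' ((bmem_sup N hl hlu hcop ?_).1 hc)
    push_cast
    exact h.two.two_mem h.ht
  have htL' : t ∉ L ⊔ Submodule.span ℤ {u} := fun hc => ht' (htwo.two_mem hc)
  refine ⟨htwo, h.h2, Submodule.mem_sup_left h.ht, ht', ?_⟩
  have hS0 : 0 < V (sg N L t) := zero_lt_iff.2 ((V.ne_zero_iff).2 h.ne)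
  obtain ⟨m, hm⟩ : ∃ m, l = 2 * m + 1 := (hl.odd_of_ne_two hl2)
  have hsplit : ∏ j ∈ Finset.range l, sg N L (t + j * u) = sg N L t *
      ∏ j ∈ Finset.range m,
        (sg N L (t + ((j + 1 : ℕ) : ℂ) * u) * sg N L (t - ((j + 1 : ℕ) : ℂ) * u)) := by
    rw [hm, Finset.prod_range_succ', Nat.cast_zero, zero_mul, add_zero, mul_comm, two_mul,
      Finset.prod_range_add, Finset.prod_mul_distrib]
    congr 2
    rw [← Finset.prod_range_reflect]
    refine Finset.prod_congr rfl fun j hj => ?_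
    rw [Finset.mem_range] at hj
    have h4 : (((m + (m - 1 - j) + 1 : ℕ)) : ℂ) = (l : ℂ) - ((j + 1 : ℕ) : ℂ) := by
      rw [eq_sub_iff_add_eq]
      norm_cast
      omega
    rw [h4, ← bsg_add h.two (t - ((j + 1 : ℕ) : ℂ) * u) hlu]
    congr 1
    ring
  have hprod : V (∏ j ∈ Finset.range l, sg N L (t + j * u)) = V (sg N L t) ^ l := by
    rw [hsplit, map_mul, map_prod]
    have h3 : ∀ j ∈ Finset.range m,
        V (sg N L (t + ((j + 1 : ℕ) : ℂ) * u) * sg N L (t - ((j + 1 : ℕ) : ℂ) * u)) =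
          V (sg N L t) ^ 2 := by
      intro j hj
      rw [Finset.mem_range] at hj
      rw [map_mul]
      refine pair_eq h hl hl2 hu hlu htL' fun hd => ?_
      have := Nat.le_of_dvd (Nat.succ_pos j) hd
      omega
    rw [Finset.prod_congr rfl h3, Finset.prod_const, Finset.card_range, ← pow_mul, ← pow_succ', hm]
  have hP0 : V (∏ j ∈ Finset.Ico 1 l, sg N L (j * u)) ≠ 0 := by
    rw [map_prod, Finset.prod_ne_zero_iff]
    intro j hj
    rw [Finset.mem_Ico] at hj
    have hj' : ¬ l ∣ j := fun hd => by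
      have := Nat.le_of_dvd (by omega) hd
      omega
    have hju : (j : ℂ) * u ∉ L := bmul_nmem h.two hl hl2 hu hlu hj'
    have hge : V (sg N L t) ≤ V (sg N L (j * u)) := by
      refine h.ge (hl.odd_of_ne_two hl2) (fun h1 => hju (h.two.le h1)) ?_
      have h1 : (l : ℂ) * ((j : ℂ) * u) = (j : ℂ) * ((l : ℂ) * u) := by ring
      rw [h1]
      exact nat_mem hlu j
    exact (lt_of_lt_of_le hS0 hge).ne'
  have h1 := congrArg V (bcsq_iso h.two hl hl2 hu hlu)
  have h2 := congrArg V (bsg_iso h.two hl hl2 hu hlu htL')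
  rw [map_mul, map_pow, map_pow] at h1
  rw [map_mul, hprod] at h2
  have h3 : V (sg (N ⊔ Submodule.span ℤ {u}) (L ⊔ Submodule.span ℤ {u}) t) ^ 4 *
      V (∏ j ∈ Finset.Ico 1 l, sg N L (j * u)) ^ 4 = V (csq N L) ^ l := by
    rw [← mul_pow, h2, h.hc, ← pow_mul, ← pow_mul, mul_comm]
  exact mul_right_cancel₀ (pow_ne_zero 4 hP0) (h1.trans h3.symm)

theorem mx_step (h : Two N L) (h2 : V 2 = 1) (hM : Mx V N L) {l : ℕ} (hl : l.Prime)
    (hl2 : l ≠ 2) {u : ℂ} (hu : u ∉ N) (hlu : (l : ℂ) * u ∈ N) :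
    Mx V (N ⊔ Submodule.span ℤ {u}) (L ⊔ Submodule.span ℤ {u}) := by
  obtain ⟨t, ht, ht'⟩ := exists_t h
  have h3 := bgd_step ((bgd_iff h h2 ht ht').2 hM) hl hl2 hu hlu
  exact (bgd_iff h3.two h2 h3.ht h3.ht').1 h3

end Pool.Agent.Work.MP_8efaaa_nt.K5
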