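import Mathlib
import Pool.Agent.Work.MP_8efaaa_nt.K5.MxStep

/-!
# K5/MxOdd: goodness is preserved by odd isogenies

`N ≤ N'`, `m N' ≤ N`, `m` odd. Strong induction on `m`: `l` a prime divisor,
`N'' = {x ∈ N' : l x ∈ N}` is `N`, `N + Z u` or `l⁻¹ N = N + Z u + Z v` (`bsup`).
-/

set_option autoImplicit false

namespace Pool.Agent.Work.MP_8efaaa_nt.K5

open Pool.Agent.Work.CM Pool.Agent.Work.MP_8efaaa_nt.R
open scoped Pointwise

variable {Γ : Type*} [LinearOrderedCommGroupWithZero Γ] {V : Valuation ℂ Γ}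
  {N L A B D : Submodule ℤ ℂ}

private theorem zmul_mem {A : Submodule ℤ ℂ} {z : ℂ} (hz : z ∈ A) (n : ℤ) : (n : ℂ) * z ∈ A := by
  have h1 := A.smul_mem n hz
  simpa [zsmul_eq_mul] using h1

private theorem span_le' {A : Submodule ℤ ℂ} {z : ℂ} (hz : z ∈ A) : Submodule.span ℤ {z} ≤ A :=
  (Submodule.span_singleton_le_iff_mem z A).2 hz

/-- `P` is preserved by isogenies of odd prime degree `l ∣ m` -/
def StepP (m : ℕ) (P : Submodule ℤ ℂ → Submodule ℤ ℂ → Prop) : Prop :=
  ∀ {N L : Submodule ℤ ℂ} {l : ℕ} {u : ℂ}, Two N L → P N L → l.Prime → l ≠ 2 → l ∣ m → u ∉ N →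
    (l : ℂ) * u ∈ N → P (N ⊔ Submodule.span ℤ {u}) (L ⊔ Submodule.span ℤ {u})

/-- the step for the elements killed by a prime -/
private theorem prime_part {m : ℕ} {P : Submodule ℤ ℂ → Submodule ℤ ℂ → Prop} (hP : StepP m P)
    (h : Two N L) (hM : P N L) {l : ℕ} (hl : l.Prime)
    (hl2 : l ≠ 2) (hlm : l ∣ m) {X : Submodule ℤ ℂ} (hNX : N ≤ X)
    (hX : ∀ x ∈ X, (l : ℂ) * x ∈ N) :
    Two X (L ⊔ X) ∧ P X (L ⊔ X) := by
  by_cases h3 : X ≤ N
  · obtain rfl : N = X := le_antisymm hNX h3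
    rw [sup_eq_left.2 h.le]
    exact ⟨h, hM⟩
  · obtain ⟨u, huX, huN⟩ := SetLike.not_le_iff_exists.1 h3
    have hlu := hX u huX
    have t1 := btwo h hl hl2 hlu
    have m1 := hP h hM hl hl2 hlm huN hlu
    have l1 : N ⊔ Submodule.span ℤ {u} ≤ X := sup_le hNX (span_le' huX)
    by_cases h4 : X ≤ N ⊔ Submodule.span ℤ {u}
    · have e1 : X = N ⊔ Submodule.span ℤ {u} := le_antisymm h4 l1
      have e2 : L ⊔ X = L ⊔ Submodule.span ℤ {u} := by
        rw [e1, ← sup_assoc, sup_eq_left.2 h.le]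
      rw [e2]
      conv => rw [e1]
      exact ⟨t1, m1⟩
    · obtain ⟨v, hvX, hvN⟩ := SetLike.not_le_iff_exists.1 h4
      have hlv : (l : ℂ) * v ∈ N ⊔ Submodule.span ℤ {u} := Submodule.mem_sup_left (hX v hvX)
      have t2 := btwo t1 hl hl2 hlv
      have m2 := hP t1 m1 hl hl2 hlm hvN hlv
      obtain ⟨w, hw, hlw, e1, e2⟩ := bsup h hl hl2 huN hlu
      have hl0 : (l : ℂ) ≠ 0 := Nat.cast_ne_zero.2 hl.ne_zero
      have hin : ∀ x : ℂ, (l : ℂ) * x ∈ N → x ∈ (l : ℂ)⁻¹ • N := by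
        intro x hx
        have h5 : x = (l : ℂ)⁻¹ * ((l : ℂ) * x) := by
          rw [← mul_assoc, inv_mul_cancel₀ hl0, one_mul]
        rw [h5]
        exact (mem_smul_iff (inv_ne_zero hl0)).2 hx
      have hv' := hin v (hX v hvX)
      rw [e1] at hv'
      obtain ⟨n, hn, y, hy, hny⟩ := Submodule.mem_sup.1 hv'
      obtain ⟨j, rfl⟩ := Submodule.mem_span_singleton.1 hy
      have hlj : ¬ (l : ℤ) ∣ j := by
        rintro ⟨j', rfl⟩
        apply hvN
        rw [← hny]
        refine add_mem hn ?_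
        have h6 : ((l : ℤ) * j') • w = (j' : ℂ) * ((l : ℂ) * w) := by
          rw [zsmul_eq_mul]
          push_cast
          ring
        rw [h6]
        exact zmul_mem hlw j'
      have hcop : IsCoprime (l : ℤ) j :=
        (Nat.prime_iff_prime_int.1 hl).coprime_iff_not_dvd.2 hlj
      obtain ⟨p, q, hpq⟩ := hcop
      have hwN2 : w ∈ N ⊔ Submodule.span ℤ {u} ⊔ Submodule.span ℤ {v} := by
        have h7 : w = (p : ℂ) * ((l : ℂ) * w) + ((q : ℂ) * v + ((-q : ℤ) : ℂ) * n) := by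
          have h8 : (p : ℂ) * l + q * j = 1 := by exact_mod_cast congrArg (Int.cast : ℤ → ℂ) hpq
          rw [zsmul_eq_mul] at hny
          push_cast
          linear_combination (-w) * h8 + (q : ℂ) * hny
        rw [h7]
        refine add_mem (Submodule.mem_sup_left (zmul_mem hlw p)) (add_mem ?_ ?_)
        · exact Submodule.mem_sup_right (zmul_mem (Submodule.mem_span_singleton_self v) q)
        · exact Submodule.mem_sup_left (zmul_mem hn _)
      have hle : X ≤ N ⊔ Submodule.span ℤ {u} ⊔ Submodule.span ℤ {v} := by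
        intro x hx
        have h9 := hin x (hX x hx)
        rw [e1] at h9
        exact (sup_le le_sup_left (span_le' hwN2) :
          N ⊔ Submodule.span ℤ {u} ⊔ Submodule.span ℤ {w} ≤ _) h9
      have e3 : X = N ⊔ Submodule.span ℤ {u} ⊔ Submodule.span ℤ {v} :=
        le_antisymm hle (sup_le l1 (span_le' hvX))
      have e4 : L ⊔ X = L ⊔ Submodule.span ℤ {u} ⊔ Submodule.span ℤ {v} := by
        rw [e3, sup_assoc N, ← sup_assoc L, sup_eq_left.2 h.le, sup_assoc]
      rw [e4]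
      conv => rw [e3]
      exact ⟨t2, m2⟩

/-- a property which is preserved by isogenies of odd prime degree is preserved by all isogenies
of odd degree -/
theorem odd_ind {m₀ : ℕ} {P : Submodule ℤ ℂ → Submodule ℤ ℂ → Prop} (hP : StepP m₀ P) (m : ℕ) :
    ∀ {N L N' : Submodule ℤ ℂ}, m ∣ m₀ → Odd m → Two N L → P N L →
    N ≤ N' → (∀ x ∈ N', (m : ℂ) * x ∈ N) → Two N' (L ⊔ N') ∧ P N' (L ⊔ N') := by
  induction m using Nat.strong_induction_on with
  | _ m ih =>
    intro N L N' hm0 hm h hM hle hN'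
    rcases Nat.lt_or_ge 1 m with h1 | h1
    · set l := m.minFac with hl
      have hlp : l.Prime := Nat.minFac_prime (by omega)
      obtain ⟨k, hk⟩ := Nat.minFac_dvd m
      rw [← hl] at hk
      have hk0 : 0 < k := Nat.pos_of_ne_zero fun h0 => by
        rw [h0, mul_zero] at hk
        omega
      have hlo : Odd l := by
        rw [hk] at hm
        exact (Nat.odd_mul.1 hm).1
      have hko : Odd k := by
        rw [hk] at hm
        exact (Nat.odd_mul.1 hm).2
      have hl2 : l ≠ 2 := by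
        intro h3
        rw [h3] at hlo
        exact absurd hlo (by decide)
      have hkm : k < m := by
        rw [hk]
        exact lt_mul_left hk0 hlp.one_lt
      -- the elements killed by `l`
      let X : Submodule ℤ ℂ :=
        { carrier := {x | x ∈ N' ∧ (l : ℂ) * x ∈ N}
          add_mem' := by
            rintro x y ⟨h3, h4⟩ ⟨h5, h6⟩
            exact ⟨add_mem h3 h5, by rw [mul_add]; exact add_mem h4 h6⟩
          zero_mem' := ⟨N'.zero_mem, by rw [mul_zero]; exact N.zero_mem⟩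
          smul_mem' := by
            rintro c x ⟨h3, h4⟩
            refine ⟨N'.smul_mem c h3, ?_⟩
            rw [zsmul_eq_mul]
            have h5 : (l : ℂ) * ((c : ℂ) * x) = (c : ℂ) * ((l : ℂ) * x) := by ring
            rw [h5]
            exact zmul_mem h4 c }
      have hX : ∀ x, x ∈ X ↔ x ∈ N' ∧ (l : ℂ) * x ∈ N := fun x => Iff.rfl
      have hNX : N ≤ X := fun x hx => ⟨hle hx, by
        have := zmul_mem hx (l : ℤ)
        exact_mod_cast this⟩
      have hXN' : X ≤ N' := fun x hx => hx.1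
      have hlm0 : l ∣ m₀ := (Dvd.intro k hk.symm).trans hm0
      have hkm0 : k ∣ m₀ := (Dvd.intro_left l hk.symm).trans hm0
      obtain ⟨t1, m1⟩ := prime_part hP h hM hlp hl2 hlm0 hNX (fun x hx => hx.2)
      obtain ⟨t2, m2⟩ := ih k hkm hkm0 hko t1 m1 hXN' (by
        intro x hx
        rw [hX]
        refine ⟨?_, ?_⟩
        · have := zmul_mem hx (k : ℤ)
          exact_mod_cast this
        · have h3 := hN' x hx
          rw [hk] at h3
          push_cast at h3
          rwa [mul_assoc] at h3)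
      rw [sup_assoc, sup_eq_right.2 hXN'] at t2 m2
      exact ⟨t2, m2⟩
    · have hm1 : m = 1 := by
        rcases hm with ⟨c, hc⟩
        omega
      subst hm1
      have e : N = N' := le_antisymm hle fun x hx => by
        have h3 := hN' x hx
        rwa [Nat.cast_one, one_mul] at h3
      subst e
      rw [sup_eq_left.2 h.le]
      exact ⟨h, hM⟩

theorem mx_odd (h2 : V 2 = 1) (m : ℕ) {N L N' : Submodule ℤ ℂ} (hm : Odd m) (h : Two N L)
    (hM : Mx V N L) (hle : N ≤ N') (hN' : ∀ x ∈ N', (m : ℂ) * x ∈ N) :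
    Two N' (L ⊔ N') ∧ Mx V N' (L ⊔ N') :=
  odd_ind (m₀ := m) (P := fun N L => Mx V N L)
    (fun h hM hl hl2 _ hu hlu => mx_step h h2 hM hl hl2 hu hlu) m dvd_rfl hm h hM hle hN'

/-- the value of `csq` does not become smaller when the degree is a unit -/
theorem csq_odd (h2 : V 2 = 1) {m : ℕ} (hm : Odd m) (hVm : V (m : ℂ) = 1)
    {N L N' : Submodule ℤ ℂ} (h : Two N L) (hM : Mx V N L) (hle : N ≤ N')
    (hN' : ∀ x ∈ N', (m : ℂ) * x ∈ N) : V (csq N L) ≤ V (csq N' (L ⊔ N')) := by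
  have hle1 : ∀ n : ℕ, V (n : ℂ) ≤ 1 := by
    intro n
    induction n with
    | zero => rw [Nat.cast_zero, map_zero]; exact zero_le_one
    | succ n ih =>
      rw [Nat.cast_succ]
      refine (V.map_add _ _).trans (max_le ih ?_)
      rw [map_one]
  have key := odd_ind (m₀ := m) (P := fun A B => Mx V A B ∧ V (csq N L) ≤ V (csq A B))
    (fun {A B l u} h1 hM1 hl hl2 hlm hu hlu => by
      refine ⟨mx_step h1 h2 hM1.1 hl hl2 hu hlu, hM1.2.trans ?_⟩
      have hVl : V (l : ℂ) = 1 := by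
        obtain ⟨k, hk⟩ := hlm
        have e : V (l : ℂ) * V (k : ℂ) = 1 := by
          rw [← map_mul, ← hVm, hk]
          push_cast
          rfl
        refine le_antisymm (hle1 l) ?_
        rw [← e]
        exact mul_le_of_le_one_right' (hle1 k)
      obtain ⟨t, ht, ht'⟩ := exists_t h1
      have h3 := bgd_step ((bgd_iff h1 h2 ht ht').2 hM1.1) hl hl2 hu hlu
      have h4 := BGd.csq_ge h1 hl hl2 hu hlu h3
      rwa [hVl, one_pow, one_mul] at h4) m dvd_rfl hm h ⟨hM, le_rfl⟩ hle hN'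
  exact key.2.2

theorem gd_odd (h2 : V 2 = 1) {m : ℕ} (hm : Odd m) {N' : Submodule ℤ ℂ} (hlat : IsLat N)
    (hG : Gd3 V N) (hle : N ≤ N') (hN' : ∀ x ∈ N', (m : ℂ) * x ∈ N) : Gd3 V N' := by
  intro A' hA'
  obtain ⟨u, hu, hu', -⟩ := hA'.ex
  have h2u : 2 * u ∈ N' := hA'.two_mem hu
  -- the superlattice of `N`
  have hmu : (m : ℂ) * u ∈ half N := by
    rw [mem_half]
    have h3 := hN' _ h2u
    have e : 2 * ((m : ℂ) * u) = (m : ℂ) * (2 * u) := by ring
    rwa [e]
  have hmN' : (m : ℂ) * u ∉ N' := by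
    obtain ⟨c, rfl⟩ := hm
    intro h3
    apply hu'
    have h4 := sub_mem h3 (zmul_mem h2u (c : ℤ))
    have e : ((2 * c + 1 : ℕ) : ℂ) * u - ((c : ℤ) : ℂ) * (2 * u) = u := by
      push_cast
      ring
    rwa [e] at h4
  have hmN : (m : ℂ) * u ∉ N := fun h3 => hmN' (hle h3)
  have hA : Two N (N ⊔ Submodule.span ℤ {(m : ℂ) * u}) := Two.mk' hlat hmu hmN
  obtain ⟨t1, m1⟩ := mx_odd h2 m hm hA (hG _ hA) hle hN'
  have hmA' : (m : ℂ) * u ∈ A' := by
    have := zmul_mem hu (m : ℤ)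
    exact_mod_cast this
  have e : N ⊔ Submodule.span ℤ {(m : ℂ) * u} ⊔ N' = A' := by
    refine t1.eq_of_mem hA' (z := (m : ℂ) * u) ?_ hmA' hmN'
    exact Submodule.mem_sup_left (Submodule.mem_sup_right (Submodule.mem_span_singleton_self _))
  rw [e] at m1
  exact m1

/-- multiplication by `σ` permutes the superlattices -/
theorem mx_mul (h2 : V 2 = 1) (h : Two N L) (hM : Mx V N L) {σ : ℂ} (hσ : σ ≠ 0) {m : ℕ}
    (hm : Odd m) (h1 : ∀ x ∈ N, σ * x ∈ N) (h3 : ∀ x ∈ N, (m : ℂ) * (σ⁻¹ * x) ∈ N) :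
    Two N (σ • L ⊔ N) ∧ Mx V N (σ • L ⊔ N) := by
  have hle : N ≤ σ⁻¹ • N := by
    intro x hx
    have e : x = σ⁻¹ * (σ * x) := by rw [← mul_assoc, inv_mul_cancel₀ hσ, one_mul]
    rw [e]
    exact (mem_smul_iff (inv_ne_zero hσ)).2 (h1 x hx)
  obtain ⟨t1, m1⟩ := mx_odd h2 m hm h hM hle (by
    intro x hx
    rw [Submodule.mem_smul_pointwise_iff_exists] at hx
    obtain ⟨y, hy, rfl⟩ := hx
    exact h3 y hy)
  have t2 := (Two.smul hσ t1).1
  have m2 := (mx_smul t1 hσ).2 m1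
  have e1 : σ • σ⁻¹ • N = N := by rw [smul_smul, mul_inv_cancel₀ hσ, one_smul]
  have e2 : σ • (L ⊔ σ⁻¹ • N) = σ • L ⊔ N := by rw [Submodule.smul_sup', e1]
  rw [e1, e2] at t2 m2
  exact ⟨t2, m2⟩

end Pool.Agent.Work.MP_8efaaa_nt.K5
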