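import Mathlib
import Pool.Agent.Work.MP_8efaaa_nt.R.CInt
import Pool.Agent.Work.MP_8efaaa_nt.K5.MxOdd

/-!
# K5/MxBas: the ring of integers has good reduction

`σ = φ s`, `O = Lk s 3 = ℤ + ℤ σ`, `P = Lk s 2 = ℤ + ℤ (1 + σ) / 2`. Multiplication by `σ` exchanges
the superlattices `O + ℤ / 2` and `O + ℤ σ / 2` of `O`, and `Lk s 1` and `P + ℤ σ (1 + σ) / 4` of
`P`. One of each pair is good (`mx_or`), so both are (`mx_mul`). `mx_down` for `O ⊂ P`: the third
superlattice `P` of `O` is good as well. So all superlattices of `O` are good, and `gd_down`.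
-/

set_option autoImplicit false

namespace Pool.Agent.Work.MP_8efaaa_nt.K5

open NumberField Pool.Agent.Work.CM Pool.Agent.Work.MP_8efaaa_nt.R
open scoped Pointwise

variable {K : Type*} [Field K] [NumberField K] [Algebra K ℂ] {a : ℕ} {s : K}
  {Γ : Type*} [LinearOrderedCommGroupWithZero Γ] {V : Valuation ℂ Γ}

theorem sig_sq (hb : Base5 K a s) : algebraMap K ℂ s ^ 2 = -(a : ℂ) := by
  rw [← map_pow, hb.sq, map_neg, map_natCast]

theorem Ch_MM (s : K) (c : Ideal (𝓞 K)) {k : ℕ} (hk : k ≤ 5) :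
    Ch (MM s c) (w0 s) k = Lk s k ⊔ (8 : ℂ) • iv c := by
  have h := Ch_eq (1 : ℂ) ((8 : ℂ) • iv c) s hk
  rw [one_smul, one_smul, one_mul] at h
  exact h

/-- coordinates -/
theorem coord (hb : Base5 K a s) {p q : ℚ} {k : ℕ} :
    (p : ℂ) + q * algebraMap K ℂ s ∈ Lk s k ↔
      ∃ m n : ℤ, q = m * 2 ^ k / 8 ∧ p = m * 2 ^ k / 8 + n := by
  rw [mem_Lk]
  refine exists_congr fun m => exists_congr fun n => ?_
  constructor
  · intro h
    have h1 : ((p - m * 2 ^ k / 8 - n : ℚ) : ℂ) + ((q - m * 2 ^ k / 8 : ℚ) : ℂ) *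
        algebraMap K ℂ s = 0 := by
      unfold w0 at h
      push_cast
      linear_combination h
    obtain ⟨h2, h3⟩ := lin_indep hb h1
    constructor <;> linarith
  · rintro ⟨rfl, rfl⟩
    unfold w0
    push_cast
    ring

theorem two_Lk (hb : Base5 K a s) {k : ℕ} (hk : k < 5) : Two (Lk s (k + 1)) (Lk s k) := by
  have h1 : OddI (⊤ : Ideal (𝓞 K)) := by simp [OddI]
  have h2 := two_Ch (fr_MM hb h1) hk
  have h3 : ∀ {j : ℕ}, j ≤ 5 → Ch (MM s ⊤) (w0 s) j = Lk s j := by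
    intro j hj
    rw [Ch_MM s ⊤ hj]
    refine sup_eq_left.2 ?_
    intro z hz
    rw [Submodule.mem_smul_pointwise_iff_exists] at hz
    obtain ⟨y, hy, rfl⟩ := hz
    obtain ⟨x, hx, rfl⟩ := mem_iv.1 hy
    obtain ⟨t, ht⟩ := hx 1 (Submodule.mem_top)
    rw [map_one, mul_one] at ht
    rw [← ht]
    exact eight_mem_Lk hb hj t
  rwa [h3 (by omega), h3 (by omega)] at h2

omit [Algebra K ℂ] in
private theorem a_odd (hb : Base5 K a s) : ∃ b : ℤ, (a : ℤ) = 8 * b + 5 := by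
  have := hb.mod
  exact ⟨(a / 8 : ℕ), by push_cast; omega⟩

private theorem sig_ne (hb : Base5 K a s) : algebraMap K ℂ s ≠ 0 := by
  intro h
  have h1 := sig_sq hb
  rw [h] at h1
  have h2 := hb.mod
  have h3 : (a : ℂ) = 0 := by linear_combination h1
  have h4 : a = 0 := by exact_mod_cast h3
  omega

private theorem inv_mul (hb : Base5 K a s) (x : ℂ) :
    (a : ℂ) * ((algebraMap K ℂ s)⁻¹ * x) = -(algebraMap K ℂ s * x) := by
  have h := sig_ne hb
  have h1 := sig_sq hb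
  have h2 : (a : ℂ) * (algebraMap K ℂ s)⁻¹ = -algebraMap K ℂ s := by
    field_simp
    linear_combination h1
  rw [← mul_assoc, h2]
  ring

/-- multiplication by `σ` -/
private theorem sig_mul (hb : Base5 K a s) {k : ℕ} (hk : k = 2 ∨ k = 3) {x : ℂ}
    (hx : x ∈ Lk s k) : algebraMap K ℂ s * x ∈ Lk s k := by
  obtain ⟨b, hab⟩ := a_odd hb
  have h1 := sig_sq hb
  have hac : (a : ℂ) = 8 * b + 5 := by exact_mod_cast congrArg (Int.cast : ℤ → ℂ) hab
  obtain ⟨m, n, rfl⟩ := mem_Lk.1 hx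
  rcases hk with rfl | rfl
  · refine mem_Lk.2 ⟨m + 2 * n, -(m * (4 * b + 3)) - n, ?_⟩
    unfold w0
    push_cast
    rw [hac] at h1
    linear_combination ((m : ℂ) / 2) * h1
  · refine mem_Lk.2 ⟨m + n, -(m * (8 * b + 6)) - n, ?_⟩
    unfold w0
    push_cast
    rw [hac] at h1
    linear_combination (m : ℂ) * h1

/-- a pair of superlattices which is exchanged by `σ` -/
private theorem both (hb : Base5 K a s) (h2 : V 2 = 1) {k : ℕ} (hk : k = 2 ∨ k = 3)
    {A B D : Submodule ℤ ℂ} (hT : Tri (Lk s k) A B D) {b d : ℂ} (hbB : b ∈ B)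
    (hbD : d ∈ D) (hd : d ∉ Lk s k) (e1 : algebraMap K ℂ s * b = d)
    (h3 : algebraMap K ℂ s * d ∈ B) (h4 : algebraMap K ℂ s * d ∉ Lk s k) :
    Mx V (Lk s k) B ∧ Mx V (Lk s k) D := by
  have hao : Odd a := by
    have := hb.mod
    exact Nat.odd_iff.2 (by omega)
  have hm1 : ∀ x ∈ Lk s k, algebraMap K ℂ s * x ∈ Lk s k := fun x hx => sig_mul hb hk hx
  have hm2 : ∀ x ∈ Lk s k, (a : ℂ) * ((algebraMap K ℂ s)⁻¹ * x) ∈ Lk s k := fun x hx => by
    rw [inv_mul hb]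
    exact neg_mem (hm1 x hx)
  have hBD : Mx V (Lk s k) B → Mx V (Lk s k) D := by
    intro hM
    obtain ⟨t1, m1⟩ := mx_mul h2 hT.b hM (sig_ne hb) hao hm1 hm2
    have e : algebraMap K ℂ s • B ⊔ Lk s k = D := by
      refine t1.eq_of_mem hT.d (z := d) ?_ hbD hd
      rw [← e1]
      exact Submodule.mem_sup_left ((mem_smul_iff (sig_ne hb)).2 hbB)
    rwa [e] at m1
  have hDB : Mx V (Lk s k) D → Mx V (Lk s k) B := by
    intro hM
    obtain ⟨t1, m1⟩ := mx_mul h2 hT.d hM (sig_ne hb) hao hm1 hm2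
    have e : algebraMap K ℂ s • D ⊔ Lk s k = B := by
      refine t1.eq_of_mem hT.b (z := algebraMap K ℂ s * d) ?_ h3 h4
      exact Submodule.mem_sup_left ((mem_smul_iff (sig_ne hb)).2 hbD)
    rwa [e] at m1
  rcases mx_or (V := V) h2 hT.rot with h5 | h5
  · exact ⟨h5, hBD h5⟩
  · exact ⟨hDB h5, h5⟩

private theorem sup_self_mem (A : Submodule ℤ ℂ) (z : ℂ) : z ∈ A ⊔ Submodule.span ℤ {z} :=
  Submodule.mem_sup_right (Submodule.mem_span_singleton_self z)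

/-- three superlattices with given generators are different -/
private theorem tri_of {L A B D : Submodule ℤ ℂ} (hA : Two L A) (hB : Two L B) (hD : Two L D)
    {x y z : ℂ} (hx : x ∈ A) (hy : y ∈ B) (hz : z ∈ D) (hx' : x ∉ L) (hy' : y ∉ L) (hz' : z ∉ L)
    (hxy : x - y ∉ L) (hyz : y - z ∉ L) (hzx : z - x ∉ L) : Tri L A B D := by
  refine ⟨hA, hB, hD, ?_, ?_, ?_⟩
  · rintro rfl
    exact hxy (hA.sub_mem hx hx' hy hy')
  · rintro rfl
    exact hyz (hB.sub_mem hy hy' hz hz')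
  · rintro rfl
    exact hzx (hD.sub_mem hz hz' hx hx')

theorem gd_O (hb : Base5 K a s) (h2 : V 2 = 1) : Gd3 V (Lk s 3) := by
  obtain ⟨b, hab⟩ := a_odd hb
  have hsq := sig_sq hb
  have hac : (a : ℂ) = 8 * b + 5 := by exact_mod_cast congrArg (Int.cast : ℤ → ℂ) hab
  rw [hac] at hsq
  set σ := algebraMap K ℂ s with hσ
  have tO : Two (Lk s 3) (Lk s 2) := two_Lk hb (by norm_num)
  have tP : Two (Lk s 2) (Lk s 1) := two_Lk hb (by norm_num)
  -- membership in coordinates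
  have nm3 : ∀ p q : ℚ, ¬ (∃ m n : ℤ, q = m * 2 ^ 3 / 8 ∧ p = m * 2 ^ 3 / 8 + n) →
      ((p : ℂ) + q * σ) ∉ Lk s 3 := fun p q h h1 => h ((coord hb).1 h1)
  have nm2 : ∀ p q : ℚ, ¬ (∃ m n : ℤ, q = m * 2 ^ 2 / 8 ∧ p = m * 2 ^ 2 / 8 + n) →
      ((p : ℂ) + q * σ) ∉ Lk s 2 := fun p q h h1 => h ((coord hb).1 h1)
  -- points for `O`
  have o1 : (1 / 2 : ℂ) ∉ Lk s 3 := by
    have h := nm3 (1 / 2) 0 (by
      rintro ⟨m, n, h1, h2⟩
      have h3 : ((2 * (m + n) : ℤ) : ℚ) = (1 : ℤ) := by push_cast; linarith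
      have h4 : 2 * (m + n) = 1 := by exact_mod_cast h3
      omega)
    push_cast at h
    rwa [zero_mul, add_zero] at h
  have o2 : σ / 2 ∉ Lk s 3 := by
    have h := nm3 0 (1 / 2) (by
      rintro ⟨m, n, h1, h2⟩
      have h3 : ((2 * m : ℤ) : ℚ) = (1 : ℤ) := by push_cast; linarith
      have h4 : 2 * m = 1 := by exact_mod_cast h3
      omega)
    push_cast at h
    rw [zero_add] at h
    rwa [show σ / 2 = 1 / 2 * σ by ring]
  have o3 : (1 + σ) / 2 ∉ Lk s 3 := by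
    have h := nm3 (1 / 2) (1 / 2) (by
      rintro ⟨m, n, h1, h2⟩
      have h3 : ((2 * m : ℤ) : ℚ) = (1 : ℤ) := by push_cast; linarith
      have h4 : 2 * m = 1 := by exact_mod_cast h3
      omega)
    push_cast at h
    rwa [show (1 + σ) / 2 = 1 / 2 + 1 / 2 * σ by ring]
  have o4 : (1 + σ) / 2 - 1 / 2 ∉ Lk s 3 := by
    rwa [show (1 + σ) / 2 - 1 / 2 = σ / 2 by ring]
  have o5 : (1 / 2 : ℂ) - σ / 2 ∉ Lk s 3 := by
    have h := nm3 (1 / 2) (-(1 / 2)) (by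
      rintro ⟨m, n, h1, h2⟩
      have h3 : ((2 * m : ℤ) : ℚ) = (-1 : ℤ) := by push_cast; linarith
      have h4 : 2 * m = -1 := by exact_mod_cast h3
      omega)
    push_cast at h
    rwa [show (1 / 2 : ℂ) - σ / 2 = 1 / 2 + -(1 / 2) * σ by ring]
  have o6 : σ / 2 - (1 + σ) / 2 ∉ Lk s 3 := by
    have h := nm3 (-(1 / 2)) 0 (by
      rintro ⟨m, n, h1, h2⟩
      have h3 : ((2 * (m + n) : ℤ) : ℚ) = (-1 : ℤ) := by push_cast; linarith
      have h4 : 2 * (m + n) = -1 := by exact_mod_cast h3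
      omega)
    push_cast at h
    rw [zero_mul, add_zero] at h
    rwa [show σ / 2 - (1 + σ) / 2 = -(1 / 2) by ring]
  have hmem3 : ∀ m n : ℤ, (m : ℂ) + n * σ ∈ Lk s 3 := fun m n =>
    mem_Lk.2 ⟨n, m - n, by
      unfold w0
      push_cast
      rw [← hσ]
      ring⟩
  have hO1 : (1 / 2 : ℂ) ∈ half (Lk s 3) := by
    rw [mem_half]
    have h := hmem3 1 0
    push_cast at h
    rw [zero_mul, add_zero] at h
    rwa [show (2 : ℂ) * (1 / 2) = 1 by norm_num]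
  have hO2 : σ / 2 ∈ half (Lk s 3) := by
    rw [mem_half]
    have h := hmem3 0 1
    push_cast at h
    rw [zero_add, one_mul] at h
    rwa [show (2 : ℂ) * (σ / 2) = σ by ring]
  have tB := Two.mk' tO.lat hO1 o1
  have tD := Two.mk' tO.lat hO2 o2
  have hP3 : (1 + σ) / 2 ∈ Lk s 2 := mem_Lk.2 ⟨1, 0, by
    unfold w0
    push_cast
    rw [← hσ]
    ring⟩
  have hT : Tri (Lk s 3) (Lk s 2) (Lk s 3 ⊔ Submodule.span ℤ {(1 / 2 : ℂ)})
      (Lk s 3 ⊔ Submodule.span ℤ {σ / 2}) :=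
    tri_of tO tB tD hP3 (sup_self_mem _ _) (sup_self_mem _ _) o3 o1 o2 o4 o5 o6
  -- the good pair for `O`
  have gO := both (V := V) hb h2 (Or.inr rfl) hT (b := 1 / 2) (d := σ / 2) (sup_self_mem _ _)
    (sup_self_mem _ _) o2 (by rw [← hσ]; ring) (by
      rw [← hσ]
      have e : σ * (σ / 2) = (((-(4 * b + 3) : ℤ) : ℂ) + ((0 : ℤ) : ℂ) * σ) + 1 / 2 := by
        push_cast
        linear_combination (1 / 2 : ℂ) * hsq
      rw [e]
      exact add_mem (Submodule.mem_sup_left (hmem3 _ _)) (sup_self_mem _ _)) (by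
      rw [← hσ]
      have h := nm3 (-(8 * b + 5) / 2) 0 (by
        rintro ⟨m, n, h1, h2⟩
        have h3 : ((2 * (m + n) : ℤ) : ℚ) = (-(8 * b + 5) : ℤ) := by push_cast; linarith
        have h4 : 2 * (m + n) = -(8 * b + 5) := by exact_mod_cast h3
        omega)
      push_cast at h
      rw [zero_mul, add_zero] at h
      rwa [show σ * (σ / 2) = -(8 * b + 5) / 2 by linear_combination (1 / 2 : ℂ) * hsq])
  -- points for `P`
  have hB1 : (1 + σ) / 4 ∈ Lk s 1 := mem_Lk.2 ⟨1, 0, by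
    unfold w0
    push_cast
    rw [← hσ]
    ring⟩
  have p1 : (1 / 2 : ℂ) ∉ Lk s 2 := by
    have h := nm2 (1 / 2) 0 (by
      rintro ⟨m, n, h1, h2⟩
      have h3 : ((2 * n : ℤ) : ℚ) = (1 : ℤ) := by push_cast; linarith
      have h4 : 2 * n = 1 := by exact_mod_cast h3
      omega)
    push_cast at h
    rwa [zero_mul, add_zero] at h
  have p2 : (1 + σ) / 4 ∉ Lk s 2 := by
    have h := nm2 (1 / 4) (1 / 4) (by
      rintro ⟨m, n, h1, h2⟩
      have h3 : ((2 * m : ℤ) : ℚ) = (1 : ℤ) := by push_cast; linarith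
      have h4 : 2 * m = 1 := by exact_mod_cast h3
      omega)
    push_cast at h
    rwa [show (1 + σ) / 4 = 1 / 4 + 1 / 4 * σ by ring]
  have p3 : σ * ((1 + σ) / 4) ∉ Lk s 2 := by
    have h := nm2 (-(8 * b + 5) / 4) (1 / 4) (by
      rintro ⟨m, n, h1, h2⟩
      have h3 : ((2 * m : ℤ) : ℚ) = (1 : ℤ) := by push_cast; linarith
      have h4 : 2 * m = 1 := by exact_mod_cast h3
      omega)
    push_cast at h
    rwa [show σ * ((1 + σ) / 4) = -(8 * b + 5) / 4 + 1 / 4 * σ by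
      linear_combination (1 / 4 : ℂ) * hsq]
  have p4 : (1 / 2 : ℂ) - (1 + σ) / 4 ∉ Lk s 2 := by
    have h := nm2 (1 / 4) (-(1 / 4)) (by
      rintro ⟨m, n, h1, h2⟩
      have h3 : ((2 * m : ℤ) : ℚ) = (-1 : ℤ) := by push_cast; linarith
      have h4 : 2 * m = -1 := by exact_mod_cast h3
      omega)
    push_cast at h
    rwa [show (1 / 2 : ℂ) - (1 + σ) / 4 = 1 / 4 + -(1 / 4) * σ by ring]
  have p5 : (1 + σ) / 4 - σ * ((1 + σ) / 4) ∉ Lk s 2 := by
    have h := nm2 ((8 * b + 6) / 4) 0 (by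
      rintro ⟨m, n, h1, h2⟩
      have h3 : ((4 * n : ℤ) : ℚ) = (8 * b + 6 : ℤ) := by push_cast; linarith
      have h4 : 4 * n = 8 * b + 6 := by exact_mod_cast h3
      omega)
    push_cast at h
    rw [zero_mul, add_zero] at h
    rwa [show (1 + σ) / 4 - σ * ((1 + σ) / 4) = (8 * b + 6) / 4 by
      linear_combination (-1 / 4 : ℂ) * hsq]
  have p6 : σ * ((1 + σ) / 4) - 1 / 2 ∉ Lk s 2 := by
    have h := nm2 (-(8 * b + 5) / 4 - 1 / 2) (1 / 4) (by
      rintro ⟨m, n, h1, h2⟩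
      have h3 : ((2 * m : ℤ) : ℚ) = (1 : ℤ) := by push_cast; linarith
      have h4 : 2 * m = 1 := by exact_mod_cast h3
      omega)
    push_cast at h
    rwa [show σ * ((1 + σ) / 4) - 1 / 2 = -(8 * b + 5) / 4 - 1 / 2 + 1 / 4 * σ by
      linear_combination (1 / 4 : ℂ) * hsq]
  have hD1 : σ * ((1 + σ) / 4) ∈ half (Lk s 2) := by
    rw [mem_half]
    have h := sig_mul hb (Or.inl rfl) hP3
    rw [← hσ] at h
    rwa [show 2 * (σ * ((1 + σ) / 4)) = σ * ((1 + σ) / 2) by ring]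
  have tD' := Two.mk' tP.lat hD1 p3
  have hT' : Tri (Lk s 2) (half (Lk s 3)) (Lk s 1)
      (Lk s 2 ⊔ Submodule.span ℤ {σ * ((1 + σ) / 4)}) :=
    tri_of tO.half_two tP tD' hO1 hB1 (sup_self_mem _ _) p1 p2 p3 p4 p5 p6
  have gP := both (V := V) hb h2 (Or.inl rfl) hT' (b := (1 + σ) / 4) (d := σ * ((1 + σ) / 4)) hB1
    (sup_self_mem _ _) p3 (by rw [← hσ]) (by
      rw [← hσ]
      refine mem_Lk.2 ⟨-(8 * b + 5), 0, ?_⟩
      unfold w0
      push_cast
      rw [← hσ]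
      linear_combination ((1 + σ) / 4) * hsq) (by
      rw [← hσ]
      have h := nm2 (-(8 * b + 5) / 4) (-(8 * b + 5) / 4) (by
        rintro ⟨m, n, h1, h2⟩
        have h3 : ((2 * m : ℤ) : ℚ) = (-(8 * b + 5) : ℤ) := by push_cast; linarith
        have h4 : 2 * m = -(8 * b + 5) := by exact_mod_cast h3
        omega)
      push_cast at h
      rwa [show σ * (σ * ((1 + σ) / 4)) = -(8 * b + 5) / 4 + -(8 * b + 5) / 4 * σ by
        linear_combination ((1 + σ) / 4) * hsq])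
  have mOP : Mx V (Lk s 3) (Lk s 2) := mx_down h2 tO hT' gP.1 gP.2
  exact gd_of_tri hT mOP gO.1 gO.2

theorem gd_Lk4 (hb : Base5 K a s) (h2 : V 2 = 1) : Gd3 V (Lk s 4) :=
  gd_down h2 (two_Lk hb (by norm_num)) (gd_O hb h2)

end Pool.Agent.Work.MP_8efaaa_nt.K5
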