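import Mathlib
import Pool.Agent.Work.MP_8efaaa_nt.K5.MxBas

/-!
# K5/Unit: the values are units at every valuation with `V 2 = 1`
-/

set_option autoImplicit false

namespace Pool.Agent.Work.MP_8efaaa_nt.K5

open NumberField Pool.Agent.Work.CM Pool.Agent.Work.MP_8efaaa_nt.R
open scoped Pointwise

variable {K : Type*} [Field K] [NumberField K] [Algebra K ℂ] {a : ℕ} {s : K}
  {Γ : Type*} [LinearOrderedCommGroupWithZero Γ] {V : Valuation ℂ Γ}

theorem gd_Ch4 (hb : Base5 K a s) (h2 : V 2 = 1) {c : Ideal (𝓞 K)} (hc : OddI c) :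
    Gd3 V (Ch (MM s c) (w0 s) 4) := by
  rw [Ch_MM s c (by norm_num)]
  exact gd_odd h2 hc (two_Lk hb (by norm_num : 4 < 5)).lat' (gd_Lk4 hb h2) le_sup_left
    fun x hx => norm_mul_mem hb (by norm_num) hx

theorem two_M (hb : Base5 K a s) {c : Ideal (𝓞 K)} (hc : OddI c) :
    Two (MM s c) (Ch (MM s c) (w0 s) 4) := by
  have h := two_Ch (fr_MM hb hc) (k := 4) (by norm_num)
  rwa [Ch_five (fr_MM hb hc)] at h

theorem mx_M (hb : Base5 K a s) (h2 : V 2 = 1) {c : Ideal (𝓞 K)} (hc : OddI c) :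
    Mx V (MM s c) (Ch (MM s c) (w0 s) 4) := by
  have ht := two_M hb hc
  obtain ⟨B, D, hT⟩ := exists_tri ht.half_two
  have hG := gd_Ch4 hb h2 hc
  exact mx_down h2 ht hT (hG _ hT.b) (hG _ hT.d)

theorem bgd_M (hb : Base5 K a s) (h2 : V 2 = 1) {c : Ideal (𝓞 K)} (hc : OddI c) :
    BGd V (MM s c) (Ch (MM s c) (w0 s) 4) (8 * w0 s) := by
  have hf := fr_MM hb hc
  refine (bgd_iff (two_M hb hc) h2 ?_ ?_).2 (mx_M hb h2 hc)
  · have e : 2 * (8 * w0 s) = (2 : ℂ) ^ 4 * w0 s := by ring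
    rw [e]
    exact pow_mem_Ch 4
  · have e : 2 * (8 * w0 s) = 16 * w0 s := by ring
    rw [e]
    exact hf.nmem

private theorem one_of_sq {x : Γ} (h : x ^ 2 = 1) : x = 1 := by
  rcases lt_trichotomy x 1 with h1 | h1 | h1
  · exact absurd h (pow_lt_one₀ zero_le h1 two_ne_zero).ne
  · exact h1
  · exact absurd h (one_lt_pow₀ h1 two_ne_zero).ne'

/-- the values are units at every valuation with `V 2 = 1` -/
theorem unit_all (hb : Base5 K a s) (h2 : V 2 = 1) {c : Ideal (𝓞 K)} (hc : OddI c) :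
    V (Zc s c) = 1 ∧ V (2 - Zc s c ^ 2) = 1 ∧ V (Kc s c) = 1 ∧ V (Vc s c) = 1 := by
  have h := fr_MM hb hc
  have hg := bgd_M (V := V) hb h2 hc
  unfold Zc Kc Vc
  set M := MM s c
  set w := w0 s
  have hS : V (SS M w 3) ≠ 0 := (V.ne_zero_iff).2 (SS_ne h le_rfl)
  -- the first two
  have e1 : V (fz M w) ^ 2 * V (2 - fz M w ^ 2) = 1 := by
    have h3 := congrArg V (csq_eq h)
    rw [hg.hc, ← SS_three h, map_mul, map_pow, map_mul, map_pow] at h3
    have h4 : V (SS M w 3) ^ 4 * 1 = V (SS M w 3) ^ 4 * (V (fz M w) ^ 2 * V (2 - fz M w ^ 2)) := by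
      rw [mul_one]
      exact h3
    exact (mul_left_cancel₀ (pow_ne_zero 4 hS) h4).symm
  have hz1 : V (fz M w) ≤ 1 := by
    by_contra hcon
    have h3 : 1 < V (fz M w) := not_le.1 hcon
    have h4 : 1 < V (fz M w) ^ 2 := one_lt_pow₀ h3 two_ne_zero
    have h5 : V (2 - fz M w ^ 2) = V (fz M w) ^ 2 := by
      rw [V.map_sub_eq_of_lt_right, map_pow]
      rw [map_pow, h2]
      exact h4
    rw [h5] at e1
    exact absurd e1 (one_lt_mul'' h4 h4).ne'
  have hz2 : V (2 - fz M w ^ 2) ≤ 1 := by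
    refine V.map_sub_le h2.le ?_
    rw [map_pow]
    exact pow_le_one' hz1 2
  have hz3 : V (fz M w) ^ 2 = 1 := by
    refine le_antisymm (pow_le_one' hz1 2) ?_
    rw [← e1]
    exact mul_le_of_le_one_right' hz2
  have hz4 : V (fz M w) = 1 := one_of_sq hz3
  have hz5 : V (2 - fz M w ^ 2) = 1 := by rwa [hz3, one_mul] at e1
  -- the third
  obtain ⟨D, hT⟩ := chain_tri h (k := 3) (by norm_num)
  have q1 := SS_sq h (k := 3) (by norm_num) hT
  have q2 := DD_sq h (k := 3) (by norm_num) hT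
  have q3 := SS_step h (j := 2) (by norm_num) hT
  have hG := gd_eq h2 (gd_Ch4 (V := V) hb h2 hc) hT
  have e3 : V (SS M w 2 - SS M w 3) ^ 2 = V (SS M w 3) ^ 2 := by
    rw [← map_pow, ← map_pow, ← q3, q2, q1, ← hG]
    exact (V.map_sub_swap _ _).symm ▸ rfl
  have e4 : V (fz M w ^ 2 - 1) ^ 2 = 1 := by
    have h3 : (fz M w ^ 2 - 1) * SS M w 3 = SS M w 2 - SS M w 3 := by
      have := fz_sq' h
      linear_combination this
    have h4 := congrArg (fun x => V x ^ 2) h3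
    simp only [map_mul, mul_pow] at h4
    rw [e3] at h4
    have h5 : V (fz M w ^ 2 - 1) ^ 2 * V (SS M w 3) ^ 2 = 1 * V (SS M w 3) ^ 2 := by
      rw [one_mul]
      exact h4
    exact mul_right_cancel₀ (pow_ne_zero 2 hS) h5
  have e5 : V (fk M w) = 1 := by
    have h3 : fz M w ^ 2 - 1 = fk M w ^ 2 := by linear_combination fz_sq h
    have h4 := one_of_sq e4
    rw [h3, map_pow] at h4
    exact one_of_sq h4
  refine ⟨hz4, hz5, e5, ?_⟩
  have h3 := congrArg V (fvz_sq h)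
  rw [map_pow, map_mul, map_mul, h2, e5, hz4, mul_one, mul_one] at h3
  exact one_of_sq h3

end Pool.Agent.Work.MP_8efaaa_nt.K5
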