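import Mathlib
import Pool.Agent.Work.MP_8efaaa_nt.R.DVal
import Pool.Agent.Work.MP_8efaaa_nt.K5.Unit
import Pool.Agent.Work.MP_8efaaa_nt.N5.BKr

/-!
# K5/KrR: the Kronecker congruence at all odd prime ideals of degree one

No hypothesis on good reduction (`unit_all`), and the ramified prime ideals (`q ^ 2 = (l)`,
`l ∣ a`) are allowed. For these: `λ = l + 4 s ∈ q`, `(λ) = q b`, `N b = l + 16 (a / l)` is prime to
`l`, `M (q b c) = λ⁻¹ M (c)`; so `V (csq (M (q c))) ≤ V (csq (M (b q c))) = V λ ^ 4 V (csq (M (c)))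
< V (csq (M (c)))` (`csq_odd`), and the rest of the proof of `kron` is unchanged.
-/

set_option autoImplicit false

namespace Pool.Agent.Work.MP_8efaaa_nt.K5

open NumberField Pool.Agent.Work.CM Pool.Agent.Work.MP_8efaaa_nt.R
open Pool.Agent.Work.MP_8efaaa_nt.N5 (Zm Km Vm)
open scoped Pointwise

variable {K : Type*} [Field K] [NumberField K] [Algebra K ℂ] {a : ℕ} {s : K}
  {Γ : Type*} [LinearOrderedCommGroupWithZero Γ] {V : Valuation ℂ Γ}

omit [NumberField K] in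
theorem em_ne' {δ : 𝓞 K} (hδ : δ ≠ 0) : em δ ≠ 0 := by
  intro h
  apply hδ
  have h1 : algebraMap (𝓞 K) K δ = 0 := (map_eq_zero (algebraMap K ℂ)).1 h
  exact (FaithfulSMul.algebraMap_eq_zero_iff (𝓞 K) K).1 h1

theorem iv_span {δ : 𝓞 K} (hδ : δ ≠ 0) (c : Ideal (𝓞 K)) :
    iv (Ideal.span {δ} * c) = (em δ)⁻¹ • iv c := by
  have hd : em δ ≠ 0 := em_ne' hδ
  ext z
  rw [mem_iv_span hδ]
  constructor
  · intro h
    have h1 := (mem_smul_iff (L := iv c) (inv_ne_zero hd)).2 h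
    rwa [← mul_assoc, inv_mul_cancel₀ hd, one_mul] at h1
  · intro h
    rw [← mem_smul_iff (L := iv c) (inv_ne_zero hd), ← mul_assoc, inv_mul_cancel₀ hd, one_mul]
    exact h

theorem M_span (hb : Base5 K a s) (c : Ideal (𝓞 K)) {δ : 𝓞 K} {p q : ℤ}
    (hpq : algebraMap (𝓞 K) K δ = p + 4 * q * s) (hδ : OddI (Ideal.span {δ})) :
    MM s (Ideal.span {δ} * c) = (em δ)⁻¹ • MM s c ∧
      Ch (MM s (Ideal.span {δ} * c)) (w0 s) 4 = (em δ)⁻¹ • Ch (MM s c) (w0 s) 4 := by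
  have hδ0 : δ ≠ 0 := by
    rintro rfl
    unfold OddI at hδ
    rw [Ideal.span_singleton_eq_bot.2 rfl, Ideal.absNorm_bot] at hδ
    exact absurd hδ (by decide)
  have hd : em δ ≠ 0 := em_ne' hδ0
  constructor
  · rw [MM_span s hδ0, order_eq hb c (j := 3) (by norm_num) (p := p) (q := q)
      (by rw [hpq]; norm_num) hδ, ← MM]
  · rw [Ch_MM s _ (by norm_num), Ch_MM s _ (by norm_num), iv_span hδ0,
      show (4 : ℕ) = 2 + 2 by norm_num, Lk_La,
      ← order_eq hb c (j := 2) (by norm_num) (p := p) (q := 2 * q)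
      (by rw [hpq]; push_cast; ring) hδ, Submodule.smul_sup', inv_smul_smul₀ hd, smul_comm]

/-- the value of `csq` becomes smaller under a ramified prime ideal -/
theorem csq_lt_ram (hb : Base5 K a s) (h2 : V 2 = 1) {l : ℕ} (hl : l.Prime) (hl2 : l ≠ 2)
    (hla : l ∣ a) {q : Ideal (𝓞 K)} (hq : q.IsPrime) (hql : Ideal.absNorm q = l)
    (hVl : V (l : ℂ) < 1) (hVq : ∀ x ∈ q, V (em x) < 1) {c : Ideal (𝓞 K)} (hc : OddI c) :
    V (csq (MM s (q * c)) (Ch (MM s (q * c)) (w0 s) 4)) <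
      V (csq (MM s c) (Ch (MM s c) (w0 s) 4)) := by
  obtain ⟨S, hS, hS'⟩ := exists_S hb
  have hlo : Odd l := hl.odd_of_ne_two hl2
  obtain ⟨a', ha'⟩ := hla
  have hqo : OddI q := by
    unfold OddI
    rw [hql]
    exact hlo
  have hqc : OddI (q * c) := (oddI_mul q c).2 ⟨hqo, hc⟩
  have hSS : S * S = -(a : 𝓞 K) := by
    apply FaithfulSMul.algebraMap_injective (𝓞 K) K
    rw [map_mul, hS, ← pow_two, hb.sq]
    simp
  have hlq : (l : 𝓞 K) ∈ q := by
    rw [← hql]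
    exact Ideal.absNorm_mem q
  have hSq : S ∈ q := by
    have h1 : S * S ∈ q := by
      rw [hSS, ha']
      push_cast
      exact q.neg_mem (q.mul_mem_right _ hlq)
    rcases hq.mem_or_mem h1 with h | h <;> exact h
  set lam : 𝓞 K := (l : 𝓞 K) + 4 * S with hlam
  have hlamq : lam ∈ q := q.add_mem hlq (q.mul_mem_left _ hSq)
  have hlK : algebraMap (𝓞 K) K lam = ((l : ℤ) : K) + 4 * ((1 : ℤ) : K) * s := by
    rw [hlam]
    simp only [map_add, map_mul, map_natCast, map_ofNat, hS]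
    push_cast
    ring
  have hlK' : algebraMap (𝓞 K) K lam = ((l : ℤ) : K) + ((4 : ℤ) : K) * s := by
    rw [hlK]
    push_cast
    ring
  have hodd : OddI (Ideal.span {lam}) := by
    rw [oddI_span hb hlK']
    obtain ⟨k, hk⟩ := hlo
    exact ⟨k + 2, by rw [hk]; push_cast; ring⟩
  have hnorm := absNorm_pq hb hlK'
  obtain ⟨b, hb'⟩ : q ∣ Ideal.span {lam} := Ideal.dvd_span_singleton.2 hlamq
  have hbo : OddI b := by
    have h1 := hodd
    rw [hb', oddI_mul] at h1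
    exact h1.2
  have hnb : (Ideal.absNorm b : ℤ) = l + 16 * a' := by
    rw [hb', map_mul, hql, ha'] at hnorm
    have hl0 : (l : ℤ) ≠ 0 := by exact_mod_cast hl.ne_zero
    apply mul_left_cancel₀ hl0
    push_cast at hnorm
    linear_combination hnorm
  have hVb : V ((Ideal.absNorm b : ℕ) : ℂ) = 1 := by
    have hlZ : Prime (l : ℤ) := Nat.prime_iff_prime_int.1 hl
    have h1 : V (((Ideal.absNorm b : ℕ) : ℤ) : ℂ) = 1 := by
      refine val_int V hl hVl ?_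
      rw [hnb]
      intro hd
      have h3 : (l : ℤ) ∣ 16 * a' := (dvd_add_right (dvd_refl _)).1 hd
      rcases hlZ.dvd_or_dvd h3 with h4 | h4
      · have h5 : l ∣ 2 ^ 4 := by exact_mod_cast h4
        exact hl2 ((Nat.prime_dvd_prime_iff_eq hl Nat.prime_two).1 (hl.dvd_of_dvd_pow h5))
      · have h5 : l ∣ a' := by exact_mod_cast h4
        have h6 : l * l ∣ a := by
          rw [ha']
          exact Nat.mul_dvd_mul_left l h5
        exact hl.not_isUnit (hb.sf l h6)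
    exact_mod_cast h1
  -- the ideal `b q c = (λ) c`
  have hbqc : b * (q * c) = Ideal.span {lam} * c := by rw [hb', ← mul_assoc, mul_comm b q]
  have hle : MM s (q * c) ≤ MM s (b * (q * c)) := by
    unfold MM
    refine sup_le_sup_left ?_ _
    intro z hz
    rw [Submodule.mem_smul_pointwise_iff_exists] at hz ⊢
    obtain ⟨y, hy, rfl⟩ := hz
    exact ⟨y, iv_le_mul b _ hy, rfl⟩
  have hmul : ∀ x ∈ MM s (b * (q * c)), ((Ideal.absNorm b : ℕ) : ℂ) * x ∈ MM s (q * c) := by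
    intro x hx
    obtain ⟨y, hy, z, hz, rfl⟩ := Submodule.mem_sup.1 hx
    rw [Submodule.mem_smul_pointwise_iff_exists] at hz
    obtain ⟨w, hw, rfl⟩ := hz
    rw [mul_add]
    refine add_mem (Submodule.mem_sup_left ?_) (Submodule.mem_sup_right ?_)
    · have := (La s 3).smul_mem ((Ideal.absNorm b : ℕ) : ℤ) hy
      rw [zsmul_eq_mul] at this
      exact_mod_cast this
    · rw [Submodule.mem_smul_pointwise_iff_exists]
      refine ⟨((Ideal.absNorm b : ℕ) : ℂ) * w, ?_, ?_⟩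
      · obtain ⟨x0, hx0, hx1⟩ := mem_iv.1 hw
        refine mem_iv.2 ⟨((Ideal.absNorm b : ℕ) : K) * x0, fun y0 hy0 => ?_, by
          rw [map_mul, map_natCast, hx1]⟩
        obtain ⟨t, ht⟩ := hx0 (((Ideal.absNorm b : ℕ) : 𝓞 K) * y0)
          (Ideal.mul_mem_mul (Ideal.absNorm_mem b) hy0)
        refine ⟨t, ?_⟩
        rw [ht, map_mul, map_natCast]
        ring
      · simp only [smul_eq_mul]
        ring
  have hchain := csq_odd h2 hbo hVb (two_M hb hqc) (mx_M hb h2 hqc) hle hmul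
  have hsup : Ch (MM s (q * c)) (w0 s) 4 ⊔ MM s (b * (q * c)) =
      Ch (MM s (b * (q * c))) (w0 s) 4 := by
    unfold Ch
    rw [sup_right_comm, sup_eq_right.2 hle]
  rw [hsup, hbqc, (M_span hb c hlK hodd).1] at hchain
  have hC := (M_span hb c hlK hodd).2
  rw [(M_span hb c hlK hodd).1] at hC
  have hl0 : em lam ≠ 0 := by
    refine em_ne' ?_
    intro h0
    rw [h0] at hodd
    unfold OddI at hodd
    rw [Ideal.span_singleton_eq_bot.2 rfl, Ideal.absNorm_bot] at hodd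
    exact absurd hodd (by decide)
  rw [hC, bcsq_smul (two_M hb hc) (inv_ne_zero hl0), inv_pow, inv_inv, map_mul, map_pow] at hchain
  refine lt_of_le_of_lt hchain ?_
  have h5 : V (csq (MM s c) (Ch (MM s c) (w0 s) 4)) ≠ 0 :=
    (V.ne_zero_iff).2 (bcsq_ne (two_M hb hc))
  have h6 : V (em lam) ^ 4 < 1 := pow_lt_one₀ zero_le (hVq lam hlamq) (by norm_num)
  calc V (em lam) ^ 4 * V (csq (MM s c) (Ch (MM s c) (w0 s) 4)) <
      1 * V (csq (MM s c) (Ch (MM s c) (w0 s) 4)) :=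
        mul_lt_mul_of_pos_right h6 (zero_lt_iff.2 h5)
    _ = _ := one_mul _

/-- the end of the proof of `kron` -/
theorem kron_one (V : Valuation ℂ Γ) {l : ℕ} (hl : l.Prime) (h2 : V 2 = 1) (hV : V (l : ℂ) < 1)
    {M M' : Submodule ℤ ℂ} {w u : ℂ} (hM : Fr M w) (hM' : Fr M' w) (hu : u ∉ M)
    (hlu : (l : ℂ) * u ∈ M) (h1 : M' = M ⊔ Submodule.span ℤ {u})
    (hgood : V (fz M w) = 1 ∧ V (2 - fz M w ^ 2) = 1)
    (hc : V (csq M' (Ch M' w 4)) < V (csq M (Ch M w 4))) :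
    (V (fz M w) ≤ 1 ∧ V (fz M' w - fz M w ^ l) < 1) ∧
    (V (fk M w) ≤ 1 ∧ V (fk M' w - fk M w ^ l) < 1) ∧
    (V (fv M w) ≤ 1 ∧ V (fv M' w - fv M w ^ l) < 1) := by
  have hl2 : l ≠ 2 := by
    rintro rfl
    rw [show ((2 : ℕ) : ℂ) = 2 by norm_num, h2] at hV
    exact lt_irrefl _ hV
  have hg := bgd_of_fr hM h2 hgood.1 hgood.2
  subst h1
  rw [bCh_sup] at hc
  exact bfr V hl h2 hV hM hM' fun n hn =>
    btn hM hg hl hl2 hu hlu hM' (fun i hi => hg.csq_lt hl hl2 hu hlu hc hi) hn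

theorem V_two {l : ℕ} (hl : l.Prime) (hl2 : l ≠ 2) {q : Ideal (𝓞 K)} (hq : q.IsPrime)
    (hql : Ideal.absNorm q = l)
    (hV1 : ∀ x : 𝓞 K, V (algebraMap K ℂ (algebraMap (𝓞 K) K x)) ≤ 1)
    (hV2 : ∀ x : 𝓞 K, V (algebraMap K ℂ (algebraMap (𝓞 K) K x)) < 1 ↔ x ∈ q) :
    V 2 = 1 ∧ V (l : ℂ) < 1 := by
  have hlo : Odd l := hl.odd_of_ne_two hl2
  have hlq : (l : 𝓞 K) ∈ q := by
    rw [← hql]
    exact Ideal.absNorm_mem q
  have h2q : (2 : 𝓞 K) ∉ q := by
    intro h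
    obtain ⟨k, hk⟩ := hlo
    apply hq.ne_top
    rw [Ideal.eq_top_iff_one]
    have h1 : (1 : 𝓞 K) = (l : 𝓞 K) - (k : 𝓞 K) * 2 := by
      rw [hk]
      push_cast
      ring
    rw [h1]
    exact q.sub_mem hlq (q.mul_mem_left _ h)
  constructor
  · have h3 := hV1 2
    have h4 := mt (hV2 2).1 h2q
    rw [map_ofNat, map_ofNat] at h3 h4
    exact le_antisymm h3 (not_lt.1 h4)
  · have h3 := (hV2 (l : 𝓞 K)).2 hlq
    rwa [map_natCast, map_natCast] at h3

/-- The Kronecker congruence at every odd prime ideal of degree one (ramified or not), without a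
hypothesis on good reduction. -/
theorem c_kron_all (hb : Base5 K a s) (V : Valuation ℂ Γ) {l : ℕ} (hl : l.Prime) (hl2 : l ≠ 2)
    {q : Ideal (𝓞 K)} (hq : q.IsPrime) (hql : Ideal.absNorm q = l)
    (hV1 : ∀ x : 𝓞 K, V (algebraMap K ℂ (algebraMap (𝓞 K) K x)) ≤ 1)
    (hV2 : ∀ x : 𝓞 K, V (algebraMap K ℂ (algebraMap (𝓞 K) K x)) < 1 ↔ x ∈ q)
    {c : Ideal (𝓞 K)} (hc : OddI c) :
    V (Zc s (q * c) - Zc s c ^ l) < 1 ∧ V (Kc s (q * c) - Kc s c ^ l) < 1 ∧
      V (Vc s (q * c) - Vc s c ^ l) < 1 ∧ V (Vm s (q * c) - Vm s c ^ l) < 1 := by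
  obtain ⟨h2, hVl⟩ := V_two hl hl2 hq hql hV1 hV2
  have hgood : ∀ c : Ideal (𝓞 K), OddI c → V (Zc s c) = 1 ∧ V (2 - Zc s c ^ 2) = 1 :=
    fun c hc => ⟨(unit_all hb h2 hc).1, (unit_all hb h2 hc).2.1⟩
  by_cases hla : l ∣ a
  · have hlo : Odd l := hl.odd_of_ne_two hl2
    have hqo : OddI q := by
      unfold OddI
      rw [hql]
      exact hlo
    have hqc : OddI (q * c) := (oddI_mul q c).2 ⟨hqo, hc⟩
    have hlt := csq_lt_ram hb h2 hl hl2 hla hq hql hVl (fun x hx => (hV2 x).2 hx) hc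
    obtain ⟨u, hu1, hu2, hu3⟩ := step_iv hb hl hl2 hq hql hc
    have k1 := kron_one V hl h2 hVl (fr_MM hb hc) (fr_MM hb hqc) hu1 hu2 hu3 (hgood c hc) hlt
    have hCh : ∀ c : Ideal (𝓞 K), Ch (MM s c) (w0 s - 1 / 4) 4 = Ch (MM s c) (w0 s) 4 := by
      intro c
      have h4 : (4 : ℂ) ∈ MM s c := by
        rw [MM_eq]
        exact Submodule.mem_sup_left (mem_Lk.2 ⟨0, 4, by push_cast; ring⟩)
      unfold Ch
      apply le_antisymm
      · refine sup_le le_sup_left ?_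
        rw [Submodule.span_singleton_le_iff_mem]
        have e : (2 : ℂ) ^ 4 * (w0 s - 1 / 4) = 2 ^ 4 * w0 s - 4 := by ring
        rw [e]
        exact sub_mem (Submodule.mem_sup_right (Submodule.mem_span_singleton_self _))
          (Submodule.mem_sup_left h4)
      · refine sup_le le_sup_left ?_
        rw [Submodule.span_singleton_le_iff_mem]
        have e : (2 : ℂ) ^ 4 * w0 s = 2 ^ 4 * (w0 s - 1 / 4) + 4 := by ring
        rw [e]
        exact add_mem (Submodule.mem_sup_right (Submodule.mem_span_singleton_self _))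
          (Submodule.mem_sup_left h4)
    have hlt' := hlt
    rw [← hCh c, ← hCh (q * c)] at hlt'
    have hgm : V (fz (MM s c) (w0 s - 1 / 4)) = 1 ∧ V (2 - fz (MM s c) (w0 s - 1 / 4) ^ 2) = 1 := by
      have h8 := hgood c hc
      rw [← (N5.qm hb hc).1] at h8
      exact h8
    have k2 := kron_one V hl h2 hVl (N5.fr_m hb hc) (N5.fr_m hb hqc) hu1 hu2 hu3 hgm hlt'
    exact ⟨k1.1.2, k1.2.1.2, k1.2.2.2, k2.2.2.2⟩
  · obtain ⟨k1, k2, k3⟩ := c_kron hb V hl hl2 hla hq hql hV1 hV2 hgood hc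
    exact ⟨k1.2, k2.2, k3.2, (N5.vm_kron hb V hl hl2 hla hq hql hV1 hV2 hgood hc).2⟩

end Pool.Agent.Work.MP_8efaaa_nt.K5
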