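import Mathlib
import Pool.Agent.Work.MP_8efaaa_nt.R.DCtx
import Pool.Agent.Work.MP_8efaaa_nt.R.DAlg
import Pool.Agent.Work.MP_8efaaa_nt.N5.Defs
import Pool.Agent.Work.MP_8efaaa_nt.K5.KrR

/-!
# K5/FRam: the values in a number field `F` at a prime ideal `L` of `F`

`CVal W L l q z k v`: `W` is a valuation of `F` which induces `L`, the values `z`, `2 - z ^ 2`, `k`, `v` are
units, and multiplication by `q` is the Frobenius map. `RVal`: the same for `X`, `Y`, `V`, `U`.
-/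

set_option autoImplicit false

namespace Pool.Agent.Work.MP_8efaaa_nt.K5

open NumberField Pool.Agent.Work.CM Pool.Agent.Work.MP_8efaaa_nt.R
open Pool.Agent.Work.MP_8efaaa_nt.N5 (Zm Km Vm ICtx IDat Inert)

/-- `W` induces the prime ideal `L` -/
structure IVal {F : Type*} [Field F] {Γ : Type*} [LinearOrderedCommGroupWithZero Γ]
    (W : Valuation F Γ) (L : Ideal (𝓞 F)) : Prop where
  le1 : ∀ x : 𝓞 F, W (algebraMap (𝓞 F) F x) ≤ 1
  lt1 : ∀ x : 𝓞 F, W (algebraMap (𝓞 F) F x) < 1 ↔ x ∈ L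

/-- units and the Frobenius congruence for `z`, `k`, `v` -/
structure CVal {K F : Type*} [Field K] [NumberField K] [Field F] {Γ : Type*}
    [LinearOrderedCommGroupWithZero Γ] (W : Valuation F Γ) (L : Ideal (𝓞 F)) (l : ℕ)
    (q : Ideal (𝓞 K)) (z k v : Ideal (𝓞 K) → F) : Prop where
  iv : IVal W L
  two : W 2 = 1
  res : W (l : F) < 1
  uz : ∀ c, OddI c → W (z c) = 1
  uz2 : ∀ c, OddI c → W (2 - z c ^ 2) = 1
  uk : ∀ c, OddI c → W (k c) = 1
  uv : ∀ c, OddI c → W (v c) = 1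
  fz : ∀ c, OddI c → W (z (q * c) - z c ^ l) < 1
  fk : ∀ c, OddI c → W (k (q * c) - k c ^ l) < 1
  fv : ∀ c, OddI c → W (v (q * c) - v c ^ l) < 1

/-- units and the Frobenius congruence for `X`, `Y`, `V`, `U` -/
structure RVal {K F : Type*} [Field K] [NumberField K] [Field F] {Γ : Type*}
    [LinearOrderedCommGroupWithZero Γ] (W : Valuation F Γ) (L : Ideal (𝓞 F)) (l : ℕ)
    (q : Ideal (𝓞 K)) (X Y V U : Ideal (𝓞 K) → F) : Prop where
  iv : IVal W L
  two : W 2 = 1
  res : W (l : F) < 1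
  uX : ∀ c, OddI c → W (X c) = 1
  uY : ∀ c, OddI c → W (Y c) = 1
  uV : ∀ c, OddI c → W (V c) = 1
  uU : ∀ c, OddI c → W (U c) = 1
  uU1 : ∀ c, OddI c → W (1 + U c) = 1
  uU2 : ∀ c, OddI c → W (1 - U c) = 1
  fX : ∀ c, OddI c → W (X (q * c) - X c ^ l) < 1
  fY : ∀ c, OddI c → W (Y (q * c) - Y c ^ l) < 1
  fV : ∀ c, OddI c → W (V (q * c) - V c ^ l) < 1
  fU : ∀ c, OddI c → W (U (q * c) - U c ^ l) < 1

section closure

variable {F : Type*} [Field F] {Γ : Type*} [LinearOrderedCommGroupWithZero Γ]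

/-- `b` is the `l`-th power of `a` in the residue field. -/
def Fg (W : Valuation F Γ) (l : ℕ) (a b : F) : Prop := W a ≤ 1 ∧ W (b - a ^ l) < 1

variable {W : Valuation F Γ} {l : ℕ}

theorem ffrob (W : Valuation F Γ) {l : ℕ} (hl : l.Prime) (hV : W (l : F) < 1) {x y : F}
    (hx : W x ≤ 1) (hy : W y ≤ 1) : W ((x + y) ^ l - (x ^ l + y ^ l)) < 1 := by
  obtain ⟨r, hr⟩ := exists_add_pow_prime_eq hl (⟨x, hx⟩ : W.integer) (⟨y, hy⟩ : W.integer)
  have h1 := congrArg (fun z : W.integer => (z : F)) hr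
  push_cast at h1
  have h2 : (x + y) ^ l - (x ^ l + y ^ l) = l * (x * y * r) := by
    rw [h1]
    ring
  rw [h2, map_mul]
  have h3 : W (x * y * r) ≤ 1 := by
    rw [map_mul, map_mul]
    exact mul_le_one' (mul_le_one' hx hy) r.2
  calc W (l : F) * W (x * y * r) ≤ W (l : F) * 1 := mul_le_mul' le_rfl h3
    _ < 1 := by rwa [mul_one]

theorem Fg.le {a b : F} (h : Fg W l a b) : W b ≤ 1 := by
  have e : b = (b - a ^ l) + a ^ l := by ring
  rw [e]
  refine W.map_add_le h.2.le ?_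
  rw [map_pow]
  exact pow_le_one' h.1 l

theorem Fg.eq_one {a b : F} (h : Fg W l a b) (ha : W a = 1) : W b = 1 := by
  have e : b = a ^ l + (b - a ^ l) := by ring
  have h1 : W (a ^ l) = 1 := by rw [map_pow, ha, one_pow]
  rw [e, W.map_add_eq_of_lt_left (by rw [h1]; exact h.2), h1]

theorem Fg.mul {a b c d : F} (h : Fg W l a b) (h' : Fg W l c d) :
    Fg W l (a * c) (b * d) := by
  refine ⟨?_, ?_⟩
  · rw [map_mul]
    exact mul_le_one' h.1 h'.1
  · have e : b * d - (a * c) ^ l = (b - a ^ l) * d + a ^ l * (d - c ^ l) := by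
      rw [mul_pow]
      ring
    rw [e]
    refine W.map_add_lt ?_ ?_
    · rw [map_mul]
      exact (mul_le_of_le_one_right' h'.le).trans_lt h.2
    · rw [map_mul, map_pow]
      exact (mul_le_of_le_one_left' (pow_le_one' h.1 l)).trans_lt h'.2

theorem Fg.add (hl : l.Prime) (hV : W (l : F) < 1) {a b c d : F} (h : Fg W l a b)
    (h' : Fg W l c d) : Fg W l (a + c) (b + d) := by
  refine ⟨W.map_add_le h.1 h'.1, ?_⟩
  have e : b + d - (a + c) ^ l =
      ((b - a ^ l) + (d - c ^ l)) - ((a + c) ^ l - (a ^ l + c ^ l)) := by ring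
  rw [e]
  exact W.map_sub_lt (W.map_add_lt h.2 h'.2) (ffrob W hl hV h.1 h'.1)

theorem Fg.one : Fg W l 1 1 := by
  refine ⟨by rw [map_one], ?_⟩
  rw [one_pow, sub_self, map_zero]
  exact zero_lt_one

theorem Fg.neg (hl : Odd l) {a b : F} (h : Fg W l a b) : Fg W l (-a) (-b) := by
  refine ⟨by rw [Valuation.map_neg]; exact h.1, ?_⟩
  rw [hl.neg_pow]
  have e : -b - -a ^ l = -(b - a ^ l) := by ring
  rw [e, Valuation.map_neg]
  exact h.2

theorem Fg.inv {a b : F} (h : Fg W l a b) (ha : W a = 1) : Fg W l a⁻¹ b⁻¹ := by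
  have hb := h.eq_one ha
  have ha0 : a ≠ 0 := by
    rintro rfl
    rw [map_zero] at ha
    exact zero_ne_one ha
  have hb0 : b ≠ 0 := by
    rintro rfl
    rw [map_zero] at hb
    exact zero_ne_one hb
  refine ⟨by rw [map_inv₀, ha, inv_one], ?_⟩
  have e : b⁻¹ - a⁻¹ ^ l = -((b - a ^ l) * (b⁻¹ * (a ^ l)⁻¹)) := by
    rw [inv_pow]
    field_simp
    ring
  rw [e, Valuation.map_neg, map_mul, map_mul, map_inv₀, map_inv₀, map_pow, hb, ha, one_pow, inv_one,
    mul_one, mul_one]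
  exact h.2

theorem Fg.div {a b c d : F} (h : Fg W l a b) (h' : Fg W l c d) (hc : W c = 1) :
    Fg W l (a / c) (b / d) := by
  rw [div_eq_mul_inv, div_eq_mul_inv]
  exact h.mul (h'.inv hc)

end closure

section ctx

variable {K F : Type*} [Field K] [NumberField K] [Algebra K ℂ] [Field F] [NumberField F]
  [Algebra K F] [Algebra F ℂ] [IsScalarTower K F ℂ] {a : ℕ} {s : K} {ζ : F}
  {z k v : Ideal (𝓞 K) → F}

/-- The values at a prime ideal `L` of `F` above a prime ideal of degree one of `K`. -/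
theorem ctx_val (hb : Base5 K a s) (h : DCtx K F s ζ z k v) {l : ℕ} (hl : l.Prime) (hl2 : l ≠ 2)
    (L : Ideal (𝓞 F)) (hL : L.IsPrime)
    (hql : Ideal.absNorm (L.comap (algebraMap (𝓞 K) (𝓞 F))) = l) :
    ∃ (Γ : Type) (_ : LinearOrderedCommGroupWithZero Γ) (W : Valuation F Γ),
      CVal W L l (L.comap (algebraMap (𝓞 K) (𝓞 F))) z k v := by
  obtain ⟨Γ, hΓ, V, hV1, hV2⟩ := exists_val L hL
  set q : Ideal (𝓞 K) := L.comap (algebraMap (𝓞 K) (𝓞 F)) with hq
  have hqp : q.IsPrime := Ideal.IsPrime.comap _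
  have hlo : Odd l := hl.odd_of_ne_two hl2
  have htower : ∀ x : 𝓞 K, algebraMap K ℂ (algebraMap (𝓞 K) K x) =
      algebraMap F ℂ (algebraMap (𝓞 F) F (algebraMap (𝓞 K) (𝓞 F) x)) := by
    intro x
    rw [IsScalarTower.algebraMap_apply K F ℂ, ← IsScalarTower.algebraMap_apply (𝓞 K) (𝓞 F) F,
      ← IsScalarTower.algebraMap_apply (𝓞 K) K F]
  have v1 : ∀ x : 𝓞 K, V (algebraMap K ℂ (algebraMap (𝓞 K) K x)) ≤ 1 := fun x => by
    rw [htower]
    exact hV1 _
  have v2 : ∀ x : 𝓞 K, V (algebraMap K ℂ (algebraMap (𝓞 K) K x)) < 1 ↔ x ∈ q := fun x => by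
    rw [htower, hV2, hq, Ideal.mem_comap]
  obtain ⟨h2, hVl⟩ := V_two hl hl2 hqp hql v1 v2
  have hqc : ∀ c, OddI c → OddI (q * c) := by
    intro c hc
    unfold OddI at hc ⊢
    rw [map_mul, hql]
    exact hlo.mul hc
  refine ⟨Γ, hΓ, V.comap (algebraMap F ℂ), ?_⟩
  refine
    { iv := ⟨hV1, hV2⟩
      two := ?_
      res := ?_
      uz := fun c hc => ?_
      uz2 := fun c hc => ?_
      uk := fun c hc => ?_
      uv := fun c hc => ?_
      fz := fun c hc => ?_
      fk := fun c hc => ?_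
      fv := fun c hc => ?_ }
  · rw [Valuation.comap_apply, map_ofNat]
    exact h2
  · rw [Valuation.comap_apply, map_natCast]
    exact hVl
  · rw [Valuation.comap_apply, h.hz c hc]
    exact (unit_all hb h2 hc).1
  · rw [Valuation.comap_apply, map_sub, map_pow, map_ofNat, h.hz c hc]
    exact (unit_all hb h2 hc).2.1
  · rw [Valuation.comap_apply, h.hk c hc]
    exact (unit_all hb h2 hc).2.2.1
  · rw [Valuation.comap_apply, h.hv c hc]
    exact (unit_all hb h2 hc).2.2.2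
  · rw [Valuation.comap_apply, map_sub, map_pow, h.hz c hc, h.hz _ (hqc c hc)]
    exact (c_kron_all hb V hl hl2 hqp hql v1 v2 hc).1
  · rw [Valuation.comap_apply, map_sub, map_pow, h.hk c hc, h.hk _ (hqc c hc)]
    exact (c_kron_all hb V hl hl2 hqp hql v1 v2 hc).2.1
  · rw [Valuation.comap_apply, map_sub, map_pow, h.hv c hc, h.hv _ (hqc c hc)]
    exact (c_kron_all hb V hl hl2 hqp hql v1 v2 hc).2.2.1

end ctx

section alg

variable {K F : Type*} [Field K] [NumberField K] [Field F]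
  {Γ : Type*} [LinearOrderedCommGroupWithZero Γ] {W : Valuation F Γ} {L : Ideal (𝓞 F)} {l : ℕ}
  {q : Ideal (𝓞 K)} {z k v : Ideal (𝓞 K) → F}

private theorem one_of_sq {x : Γ} (h : x ^ 2 = 1) : x = 1 := by
  rcases lt_trichotomy x 1 with h1 | h1 | h1
  · exact absurd h (pow_lt_one₀ zero_le h1 two_ne_zero).ne
  · exact h1
  · exact absurd h (one_lt_pow₀ h1 two_ne_zero).ne'

private theorem both_one {x y : Γ} (h : x * y = 1) (hx : x ≤ 1) (hy : y ≤ 1) : x = 1 ∧ y = 1 := by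
  have h1 : 1 ≤ x := by
    rw [← h]
    exact mul_le_of_le_one_right' hy
  have h2 : 1 ≤ y := by
    rw [← h]
    exact mul_le_of_le_one_left' hx
  exact ⟨le_antisymm hx h1, le_antisymm hy h2⟩

/-- from `z`, `k`, `v` to `X`, `Y`, `V`, `U` -/
theorem CVal.rval (h : CVal W L l q z k v) (hl : l.Prime) (hl2 : l ≠ 2)
    (e1 : ∀ c, OddI c → z c ^ 2 = 1 + k c ^ 2) :
    RVal W L l q (fun c => (1 + z c) / k c) (fun c => 2 * ((1 + z c) / k c) / (v c * z c)) v
      (fun c => 2 / z c ^ 2 - 1) := by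
  have hlo : Odd l := hl.odd_of_ne_two hl2
  have gz : ∀ c, OddI c → Fg W l (z c) (z (q * c)) := fun c hc => ⟨(h.uz c hc).le, h.fz c hc⟩
  have gk : ∀ c, OddI c → Fg W l (k c) (k (q * c)) := fun c hc => ⟨(h.uk c hc).le, h.fk c hc⟩
  have gv : ∀ c, OddI c → Fg W l (v c) (v (q * c)) := fun c hc => ⟨(h.uv c hc).le, h.fv c hc⟩
  have g2 : Fg W l 2 2 := by
    have h3 := (Fg.one (W := W) (l := l)).add hl h.res Fg.one
    rwa [one_add_one_eq_two] at h3
  have gX : ∀ c, OddI c → Fg W l ((1 + z c) / k c) ((1 + z (q * c)) / k (q * c)) := fun c hc =>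
    ((Fg.one.add hl h.res (gz c hc)).div (gk c hc) (h.uk c hc))
  have uvz : ∀ c, OddI c → W (v c * z c) = 1 := fun c hc => by
    rw [map_mul, h.uv c hc, h.uz c hc, one_mul]
  have gY : ∀ c, OddI c → Fg W l (2 * ((1 + z c) / k c) / (v c * z c))
      (2 * ((1 + z (q * c)) / k (q * c)) / (v (q * c) * z (q * c))) := fun c hc =>
    (g2.mul (gX c hc)).div ((gv c hc).mul (gz c hc)) (uvz c hc)
  have gU : ∀ c, OddI c → Fg W l (2 / z c ^ 2 - 1) (2 / z (q * c) ^ 2 - 1) := fun c hc => by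
    have h3 : Fg W l (z c ^ 2) (z (q * c) ^ 2) := by
      rw [pow_two, pow_two]
      exact (gz c hc).mul (gz c hc)
    have h4 := (g2.div h3 (by rw [map_pow, h.uz c hc, one_pow])).add hl h.res (Fg.one.neg hlo)
    rwa [← sub_eq_add_neg, ← sub_eq_add_neg] at h4
  have u1z : ∀ c, OddI c → W (1 + z c) = 1 := fun c hc => by
    have h3 : (1 + z c) * (1 - z c) = -(k c ^ 2) := by linear_combination -(e1 c hc)
    have h4 := congrArg W h3
    rw [map_mul, Valuation.map_neg, map_pow, h.uk c hc, one_pow] at h4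
    refine (both_one h4 ?_ ?_).1
    · exact W.map_add_le (by rw [map_one]) (h.uz c hc).le
    · exact W.map_sub_le (by rw [map_one]) (h.uz c hc).le
  have z0 : ∀ c, OddI c → z c ≠ 0 := fun c hc h0 => by
    have := h.uz c hc
    rw [h0, map_zero] at this
    exact zero_ne_one this
  have uX : ∀ c, OddI c → W ((1 + z c) / k c) = 1 := fun c hc => by
    rw [map_div₀, u1z c hc, h.uk c hc, div_one]
  have eU1 : ∀ c, OddI c → 1 + (2 / z c ^ 2 - 1) = 2 / z c ^ 2 := fun c _ => by ring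
  have eU : ∀ c, OddI c → 2 / z c ^ 2 - 1 = (2 - z c ^ 2) / z c ^ 2 := fun c hc => by
    have := z0 c hc
    field_simp
  have eU2 : ∀ c, OddI c → 1 - (2 / z c ^ 2 - 1) = 2 * k c ^ 2 / z c ^ 2 := fun c hc => by
    have := z0 c hc
    field_simp
    linear_combination 2 * e1 c hc
  exact
    { iv := h.iv
      two := h.two
      res := h.res
      uX := uX
      uY := fun c hc => by
        rw [map_div₀, map_mul W 2, h.two, one_mul, uX c hc, uvz c hc, div_one]
      uV := h.uv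
      uU := fun c hc => by
        show W (2 / z c ^ 2 - 1) = 1
        rw [eU c hc, map_div₀, h.uz2 c hc, map_pow, h.uz c hc, one_pow, div_one]
      uU1 := fun c hc => by
        show W (1 + (2 / z c ^ 2 - 1)) = 1
        rw [eU1 c hc, map_div₀, h.two, map_pow, h.uz c hc, one_pow, div_one]
      uU2 := fun c hc => by
        show W (1 - (2 / z c ^ 2 - 1)) = 1
        rw [eU2 c hc, map_div₀, map_mul, h.two, map_pow, map_pow, h.uz c hc, h.uk c hc, one_pow,
          one_mul, div_one]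
      fX := fun c hc => (gX c hc).2
      fY := fun c hc => (gY c hc).2
      fV := h.fv
      fU := fun c hc => (gU c hc).2 }

end alg

section inert

variable {F : Type*} [Field F] [NumberField F] {Γ : Type*} [LinearOrderedCommGroupWithZero Γ]
  {W : Valuation F Γ} {L : Ideal (𝓞 F)}

/-- a valuation which induces `L` has the same integers as the valuation of `L` -/
theorem IVal.repr (h : IVal W L) (hL : L.IsPrime) (hL0 : L ≠ ⊥) {x : F} (hx : W x ≤ 1) :
    ∃ n d : 𝓞 F, d ∉ L ∧ x * algebraMap (𝓞 F) F d = algebraMap (𝓞 F) F n := by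
  let v : IsDedekindDomain.HeightOneSpectrum (𝓞 F) := ⟨L, hL, hL0⟩
  have key : ∀ y : F, v.valuation F y ≤ 1 → ∃ n d : 𝓞 F, d ∉ L ∧
      y * algebraMap (𝓞 F) F d = algebraMap (𝓞 F) F n := by
    intro y hy
    obtain ⟨n, d, hnd⟩ := v.exists_primeCompl_mul_eq_of_integer y hy
    exact ⟨n, d, d.2, hnd⟩
  by_cases h1 : v.valuation F x ≤ 1
  · exact key x h1
  · exfalso
    have h2 : v.valuation F x⁻¹ < 1 := by
      rw [map_inv₀]
      exact inv_lt_one_of_one_lt₀ (not_le.1 h1)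
    obtain ⟨n, d, hd, hnd⟩ := key x⁻¹ h2.le
    have hx0 : x ≠ 0 := by
      rintro rfl
      rw [map_zero] at h1
      exact h1 zero_le
    -- `n ∈ L`
    have hn : n ∈ L := by
      have h3 : v.valuation F (algebraMap (𝓞 F) F n) < 1 := by
        rw [← hnd, map_mul]
        have h4 : v.valuation F (algebraMap (𝓞 F) F d) ≤ 1 := v.valuation_le_one d
        exact (mul_le_of_le_one_right' h4).trans_lt h2
      exact (v.valuation_lt_one_iff_mem (K := F) n).1 h3
    have h5 : W (algebraMap (𝓞 F) F d) = 1 := by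
      refine le_antisymm (h.le1 d) (not_lt.1 fun hlt => hd ((h.lt1 d).1 hlt))
    have h6 := congrArg W hnd
    rw [map_mul, h5, mul_one, map_inv₀] at h6
    have h7 := (h.lt1 n).2 hn
    rw [← h6] at h7
    have h8 : 0 < W x := zero_lt_iff.2 ((W.ne_zero_iff).2 hx0)
    exact absurd hx (not_le.2 ((inv_lt_one₀ h8).1 h7))

/-- the valuation of an inertia element -/
theorem IVal.inert (h : IVal W L) {ι : F ≃ₐ[ℚ] F} (hI : Inert ι L) :
    (∀ x : F, W x ≤ 1 → W (ι x - x) < 1) ∧ (∀ x : F, W x ≤ 1 → W (ι x) ≤ 1) ∧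
      ∀ x : F, W x = 1 → W (ι x) = 1 := by
  have hu : ∀ d : 𝓞 F, d ∉ L → W (algebraMap (𝓞 F) F d) = 1 := fun d hd =>
    le_antisymm (h.le1 d) (not_lt.1 fun hlt => hd ((h.lt1 d).1 hlt))
  have hi : ∀ x : 𝓞 F, W (ι (algebraMap (𝓞 F) F x) - algebraMap (𝓞 F) F x) < 1 := by
    intro x
    obtain ⟨y, hy, h1⟩ := hI.triv x
    rw [← h1]
    exact (h.lt1 y).2 hy
  have hιd : ∀ d : 𝓞 F, d ∉ L → W (ι (algebraMap (𝓞 F) F d)) = 1 := by
    intro d hd
    have e : ι (algebraMap (𝓞 F) F d) = algebraMap (𝓞 F) F d +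
        (ι (algebraMap (𝓞 F) F d) - algebraMap (𝓞 F) F d) := by ring
    rw [e, W.map_add_eq_of_lt_left (by rw [hu d hd]; exact hi d), hu d hd]
  have h1 : ∀ x : F, W x ≤ 1 → W (ι x - x) < 1 := by
    intro x hx
    obtain ⟨n, d, hd, hnd⟩ := h.repr hI.prime hI.ne_bot hx
    have e : (ι x - x) * ι (algebraMap (𝓞 F) F d) =
        (ι (algebraMap (𝓞 F) F n) - algebraMap (𝓞 F) F n) -
          x * (ι (algebraMap (𝓞 F) F d) - algebraMap (𝓞 F) F d) := by
      rw [← hnd, map_mul]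
      ring
    have h2 : W ((ι x - x) * ι (algebraMap (𝓞 F) F d)) < 1 := by
      rw [e]
      refine W.map_sub_lt (hi n) ?_
      rw [map_mul]
      exact lt_of_le_of_lt (mul_le_of_le_one_left' hx) (hi d)
    rwa [map_mul, hιd d hd, mul_one] at h2
  refine ⟨h1, fun x hx => ?_, fun x hx => ?_⟩
  · have e : ι x = x + (ι x - x) := by ring
    rw [e]
    exact W.map_add_le hx (h1 x hx).le
  · have e : ι x = x + (ι x - x) := by ring
    rw [e, W.map_add_eq_of_lt_left (by rw [hx]; exact h1 x hx.le), hx]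

theorem IVal.inert_eq (h : IVal W L) {ι : F ≃ₐ[ℚ] F} (hI : Inert ι L) (x : F) :
    W (ι x) ≤ 1 ↔ W x ≤ 1 := by
  refine ⟨fun h1 => ?_, (h.inert hI).2.1 x⟩
  by_contra h2
  have hx0 : x ≠ 0 := by
    rintro rfl
    rw [map_zero] at h2
    exact h2 zero_le_one
  have h3 : W x⁻¹ < 1 := by
    rw [map_inv₀]
    exact inv_lt_one_of_one_lt₀ (not_le.1 h2)
  have h4 := (h.inert hI).1 x⁻¹ h3.le
  have h5 : W (ι x⁻¹) < 1 := by
    have e : ι x⁻¹ = x⁻¹ + (ι x⁻¹ - x⁻¹) := by ring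
    rw [e]
    exact W.map_add_lt h3 h4
  rw [map_inv₀, map_inv₀] at h5
  have h6 : 0 < W (ι x) := zero_lt_iff.2 ((W.ne_zero_iff).2 (by simpa using hx0))
  exact absurd h1 (not_le.2 ((inv_lt_one₀ h6).1 h5))

end inert

end Pool.Agent.Work.MP_8efaaa_nt.K5
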