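import Mathlib
import Pool.Agent.Work.MP_8efaaa_nt.R.DInt
import Pool.Agent.Work.MP_8efaaa_nt.N5.Defs
import Pool.Agent.Work.MP_8efaaa_nt.N5.BCjB
import Pool.Agent.Work.MP_8efaaa_nt.N5.CCtx
import Pool.Agent.Work.MP_8efaaa_nt.N5.CAct
import Pool.Agent.Work.MP_8efaaa_nt.N5.CSgn
import Pool.Agent.Work.MP_8efaaa_nt.N5.CConj
import Pool.Agent.Work.MP_8efaaa_nt.N5.CDat
import Pool.Agent.Work.MP_8efaaa_nt.K5.FRam

/-!
# K5/RDat: the Galois data over `ℚ` (`IDat`) together with the units and the Frobenius congruence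

`rdat_of`: `IDat` for explicit `X`, `Y`, `V`, `U` (copy of `idat_of` in N5/CDat). `exists_rdat`: as
`exists_idat`, and for every odd prime number `l` and every prime ideal `L` of `F` whose
restriction to `K` has norm `l` (ramified or not): a valuation `W` of `F` with `RVal`.
-/

set_option autoImplicit false

namespace Pool.Agent.Work.MP_8efaaa_nt.K5

open NumberField Pool.Agent.Work.CM Pool.Agent.Work.MP_8efaaa_nt.R Pool.Agent.Work.MP_8efaaa_nt.N5

universe u

/-- complex conjugation on the roots of unity of order `8` -/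
private theorem conj_z8 {u : ℂ} (hu : u ^ 4 = -1) : (starRingEnd ℂ) u = u ^ 7 := by
  have h8 : u ^ 8 = 1 := by
    have : u ^ 8 = (u ^ 4) ^ 2 := by ring
    rw [this, hu]
    norm_num
  have hn : ‖u‖ = 1 := by
    have h1 : ‖u‖ ^ 8 = 1 := by rw [← norm_pow, h8, norm_one]
    exact (pow_eq_one_iff_of_nonneg (norm_nonneg u) (by norm_num)).1 h1
  have h0 : u ≠ 0 := by
    intro h
    rw [h, norm_zero] at hn
    exact zero_ne_one hn
  have h2 : (starRingEnd ℂ) u * u = 1 := by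
    rw [mul_comm, Complex.mul_conj, Complex.normSq_eq_norm_sq, hn]
    norm_num
  have h3 : u ^ 7 * u = 1 := by rw [← pow_succ, h8]
  exact mul_right_cancel₀ h0 (h2.trans h3.symm)

/-- the data over `ℚ` from the context, with complex conjugation and the sign of `vm 1` -/
theorem rdat_full {K : Type u} {F : Type*} [Field K] [NumberField K] [Algebra K ℂ] [Field F]
    [NumberField F] [Algebra K F] [Algebra F ℂ] [IsScalarTower K F ℂ] [IsGalois K F]
    [IsGalois ℚ F] {a : ℕ} {s : K} (hb : Base5 K a s)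
    {S : 𝓞 K} (hS : algebraMap (𝓞 K) K S = s) {τ : 𝓞 K ≃+* 𝓞 K} (hτ : τ S = -S)
    {d : ℕ} (hd : d ≠ 0) {ζ0 w : F} {z k v vm : Ideal (𝓞 K) → F}
    (h0 : ICtx K F s d ζ0 w z k v vm) : ∃ (ζ : F) (κ : F ≃ₐ[ℚ] F),
      ICtx K F s d ζ w z k v vm ∧
      (∀ x : F, algebraMap F ℂ (κ x) = (starRingEnd ℂ) (algebraMap F ℂ x)) ∧
      vm 1 = -(ζ ^ 2 * v 1) ∧
      IDat K F a d s S τ ζ w (fun c => (1 + z c) / k c)
        (fun c => 2 * ((1 + z c) / k c) / (v c * z c)) v (fun c => 2 / z c ^ 2 - 1) κ := by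
  obtain ⟨ζ, h, g1, g3, f1, f2⟩ := exists_sgn hb hS h0 hd
  obtain ⟨κ, hκ⟩ := exists_conj (F := F)
  have inj : Function.Injective (algebraMap F ℂ) := (algebraMap F ℂ).injective
  have e1 : ∀ c, OddI c → z c ^ 2 = 1 + k c ^ 2 := by
    intro c hc
    apply inj
    simp only [map_pow, map_add, map_one, h.dc.hz c hc, h.dc.hk c hc]
    exact fz_sq (fr_MM hb hc)
  have e2 : ∀ c, OddI c → (v c * z c) ^ 2 = 2 * k c := by
    intro c hc
    apply inj
    simp only [map_pow, map_mul, map_ofNat, h.dc.hz c hc, h.dc.hk c hc, h.dc.hv c hc]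
    exact fvz_sq (fr_MM hb hc)
  have e3 : ∀ c, OddI c → k c ≠ 0 := by
    intro c hc h0
    have := h.dc.hk c hc
    rw [h0, map_zero] at this
    exact fk_ne (fr_MM hb hc) this.symm
  have e4 : ∀ c, OddI c → z c ≠ 0 := by
    intro c hc h0
    have := h.dc.hz c hc
    rw [h0, map_zero] at this
    exact fz_ne (fr_MM hb hc) this.symm
  have hA := fun c (hc : OddI c) => alg_basic (e1 c hc) (e2 c hc) (e3 c hc) (e4 c hc)
  have hN : ∀ c : Ideal (𝓞 K), Ideal.absNorm (cj τ c) = Ideal.absNorm c :=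
    fun c => (norm_cj hb hS hτ c).1
  have hO : ∀ c : Ideal (𝓞 K), OddI c → OddI (cj τ c) := by
    intro c hc
    unfold OddI at *
    rw [hN]
    exact hc
  have kz : ∀ c, OddI c → κ (z c) = z (cj τ c) := by
    intro c hc
    apply inj
    rw [hκ, h.dc.hz c hc, (conj_val hb hS hτ hc).1, (qm hb (hO c hc)).1, h.dc.hz _ (hO c hc)]
  have kk : ∀ c, OddI c → κ (k c) = -k (cj τ c) := by
    intro c hc
    apply inj
    rw [hκ, h.dc.hk c hc, (conj_val hb hS hτ hc).2.1, (qm hb (hO c hc)).2.1, map_neg,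
      h.dc.hk _ (hO c hc)]
  have kv : ∀ c, OddI c → κ (v c) = vm (cj τ c) := by
    intro c hc
    apply inj
    rw [hκ, h.dc.hv c hc, (conj_val hb hS hτ hc).2.2, h.hvm _ (hO c hc)]
  have hz4 : ζ ^ 4 = -1 := h.dc.z8
  have hz0 : ζ ≠ 0 := by
    rintro h1
    rw [h1, zero_pow (by norm_num)] at hz4
    exact one_ne_zero (neg_eq_zero.1 hz4.symm)
  refine ⟨ζ, κ, h, hκ, g1 1 (by rw [Ideal.one_eq_top, Ideal.absNorm_top]), ?_⟩
  refine
    { gd := gdat_of_ctx hb h.dc (fun σ hσ => act_one hb h.dc hσ) (fun d hd => act_all hb h.dc hd)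
      uv := fun c hc => ?_
      fr1 := f1
      fr2 := fun c hc => f2 c hc
      hw := h.hw
      act3 := fun σ => ?_
      cs := ?_
      cz := ?_
      cw := ?_
      cX := fun c hc => ?_
      cY1 := fun c hc => ?_
      cY3 := fun c hc => ?_ }
  · obtain ⟨a1, -, -, a4, a5, a6, a7, -, -⟩ := hA c hc
    exact ⟨a1, a4, a5, a6, a7⟩
  · obtain ⟨b, hb1, hb2, M⟩ := mact_of hb h hd σ
    refine ⟨b, hb1, hb2, M.z8, M.sq, ?_⟩
    intro c hc
    obtain ⟨q1, q2, q3⟩ := M.act c hc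
    constructor
    · show σ ((1 + z c) / k c) = (1 + z (b * c)) / k (b * c)
      rw [map_div₀, map_add, map_one, q1, q2]
    · show σ (2 * ((1 + z c) / k c) / (v c * z c)) =
        2 * ((1 + z (b * c)) / k (b * c)) / (v (b * c) * z (b * c))
      rw [map_div₀, map_mul, map_div₀, map_add, map_one, map_mul, map_ofNat, q1, q2, q3]
  · apply inj
    rw [hκ, map_neg, ← IsScalarTower.algebraMap_apply K F ℂ]
    exact conj_s hb
  · apply inj
    rw [hκ, map_pow]
    apply conj_z8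
    rw [← map_pow, hz4, map_neg, map_one]
  · apply inj
    rw [hκ]
    exact h.hwr
  · show κ ((1 + z c) / k c) = -((1 + z (cj τ c)) / k (cj τ c))
    rw [map_div₀, map_add, map_one, kz c hc, kk c hc, div_neg]
  · have hc' : OddI c := Nat.odd_iff.2 (by omega)
    have h1 : vm (cj τ c) = -(ζ ^ 2 * v (cj τ c)) := g1 _ (by rw [hN]; exact hc)
    have v0 : v (cj τ c) ≠ 0 := (hA _ (hO c hc')).1
    have z0 := e4 _ (hO c hc')
    have k0 := e3 _ (hO c hc')
    show κ (2 * ((1 + z c) / k c) / (v c * z c)) =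
      -(ζ ^ 2 * (2 * ((1 + z (cj τ c)) / k (cj τ c)) / (v (cj τ c) * z (cj τ c))))
    rw [map_div₀, map_mul, map_div₀, map_add, map_one, map_mul, map_ofNat, kz c hc', kk c hc',
      kv c hc', h1]
    field_simp
    linear_combination (1 + z (cj τ c)) * hz4
  · have hc' : OddI c := Nat.odd_iff.2 (by omega)
    have h1 : vm (cj τ c) = ζ ^ 2 * v (cj τ c) := g3 _ (by rw [hN]; exact hc)
    have v0 : v (cj τ c) ≠ 0 := (hA _ (hO c hc')).1
    have z0 := e4 _ (hO c hc')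
    have k0 := e3 _ (hO c hc')
    show κ (2 * ((1 + z c) / k c) / (v c * z c)) =
      ζ ^ 2 * (2 * ((1 + z (cj τ c)) / k (cj τ c)) / (v (cj τ c) * z (cj τ c)))
    rw [map_div₀, map_mul, map_div₀, map_add, map_one, map_mul, map_ofNat, kz c hc', kk c hc',
      kv c hc', h1]
    field_simp
    linear_combination (-(1 + z (cj τ c))) * hz4

/-- the data over `ℚ` from the context -/
theorem rdat_of {K : Type u} {F : Type*} [Field K] [NumberField K] [Algebra K ℂ] [Field F]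
    [NumberField F] [Algebra K F] [Algebra F ℂ] [IsScalarTower K F ℂ] [IsGalois K F]
    [IsGalois ℚ F] {a : ℕ} {s : K} (hb : Base5 K a s)
    {S : 𝓞 K} (hS : algebraMap (𝓞 K) K S = s) {τ : 𝓞 K ≃+* 𝓞 K} (hτ : τ S = -S)
    {d : ℕ} (hd : d ≠ 0) {ζ0 w : F} {z k v vm : Ideal (𝓞 K) → F}
    (h0 : ICtx K F s d ζ0 w z k v vm) : ∃ (ζ : F) (κ : F ≃ₐ[ℚ] F),
      DCtx K F s ζ z k v ∧
      IDat K F a d s S τ ζ w (fun c => (1 + z c) / k c)
        (fun c => 2 * ((1 + z c) / k c) / (v c * z c)) v (fun c => 2 / z c ^ 2 - 1) κ := by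
  obtain ⟨ζ, κ, h, -, -, hI⟩ := rdat_full hb hS hτ hd h0
  exact ⟨ζ, κ, h.dc, hI⟩

/-- Galois data over `ℚ` with the Frobenius congruence at all odd primes of degree one -/
theorem exists_rdat {K : Type u} [Field K] [NumberField K] {a : ℕ} {s : K} (hb : Base5 K a s)
    {S : 𝓞 K} (hS : algebraMap (𝓞 K) K S = s) {τ : 𝓞 K ≃+* 𝓞 K} (hτ : τ S = -S)
    {d : ℕ} (hd : d ≠ 0) : ∃ (F : Type) (_ : Field F) (_ : NumberField F) (_ : Algebra K F)
      (_ : FiniteDimensional K F) (_ : IsGalois K F) (_ : IsGalois ℚ F) (ζ w : F)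
      (X Y V U : Ideal (𝓞 K) → F) (κ : F ≃ₐ[ℚ] F), IDat K F a d s S τ ζ w X Y V U κ ∧
      ∀ (l : ℕ) (L : Ideal (𝓞 F)), l.Prime → l ≠ 2 → L.IsPrime →
        Ideal.absNorm (L.comap (algebraMap (𝓞 K) (𝓞 F))) = l →
        ∃ (Γ : Type) (_ : LinearOrderedCommGroupWithZero Γ) (W : Valuation F Γ),
          RVal W L l (L.comap (algebraMap (𝓞 K) (𝓞 F))) X Y V U := by
  obtain ⟨φ⟩ : Nonempty (K →+* ℂ) := inferInstance
  let _ : Algebra K ℂ := φ.toAlgebra
  obtain ⟨F, hF1, hF2, hF3, ζ0, w, z, k, v, vm, h0⟩ := exists_ictx hb d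
  have hNF : NumberField F := NumberField.of_module_finite K F
  have hF4 : @IsGalois ℚ _ F _ DivisionRing.toRatAlgebra := by
    convert hF3
  obtain ⟨ζ, κ, hdc, h⟩ := rdat_of hb hS hτ hd h0
  refine ⟨F, inferInstance, hNF, inferInstance, hF1, hF2, hF4, ζ, w, _, _, _, _, κ, h, ?_⟩
  intro l L hl hl2 hL hql
  obtain ⟨Γ, hΓ, W, hW⟩ := ctx_val hb hdc hl hl2 L hL hql
  refine ⟨Γ, hΓ, W, hW.rval hl hl2 (fun c hc => ?_)⟩
  apply (algebraMap F ℂ).injective
  simp only [map_pow, map_add, map_one, hdc.hz c hc, hdc.hk c hc]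
  exact fz_sq (fr_MM hb hc)

end Pool.Agent.Work.MP_8efaaa_nt.K5
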