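import Mathlib
import Pool.Agent.Work.MP_8efaaa_nt.Rf.Ram
import Pool.Agent.Work.MP_8efaaa_nt.K5.RDat

/-!
# K5/RDt: the Galois data over `ℚ` with a valuation at each ramified prime

`RDat`: `IDat` and, for every prime number `l ∣ a` and every prime ideal `L ∋ l` of `F`, a valuation
`W` of `F` which induces `L`, invariant under inertia, for which `V`, `U`, `1 + U`, `X`, `Y` are
units and multiplication by `q = L ∩ 𝓞 K` is the Frobenius map.
-/

set_option autoImplicit false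

namespace Pool.Agent.Work.MP_8efaaa_nt.K5

open NumberField Pool.Agent.Work.CM Pool.Agent.Work.MP_8efaaa_nt.R Pool.Agent.Work.MP_8efaaa_nt.N5

universe u

section inert

variable {F : Type*} [Field F] [NumberField F] {Γ : Type*} [LinearOrderedCommGroupWithZero Γ]
  {W : Valuation F Γ} {L : Ideal (𝓞 F)}

private theorem inert_aux (h : IVal W L) {ι : F ≃ₐ[ℚ] F} (hI : Inert ι L) {x : F} (hx : x ≠ 0) :
    ¬ W (ι x / x) < 1 := by
  intro hy
  have hlt : ∀ y : F, W y < 1 → W (ι y) < 1 := by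
    intro y hy
    have e : ι y = y + (ι y - y) := by ring
    rw [e]
    exact W.map_add_lt hy ((h.inert hI).1 y hy.le)
  have h1 : ∀ k : ℕ, W ((ι ^ k) (ι x / x)) < 1 := by
    intro k
    induction k with
    | zero => simpa using hy
    | succ k ih =>
      rw [pow_succ']
      exact hlt _ ih
  have h2 : ∀ k : ℕ, W ((ι ^ (k + 1)) x) < W ((ι ^ k) x) := by
    intro k
    have e : (ι ^ (k + 1)) x = (ι ^ k) (ι x / x) * (ι ^ k) x := by
      rw [← map_mul, div_mul_cancel₀ _ hx, pow_succ]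
      rfl
    have h0 : (ι ^ k) x ≠ 0 := by
      rw [Ne, map_eq_zero_iff _ (ι ^ k).injective]
      exact hx
    have h3 : 0 < W ((ι ^ k) x) := zero_lt_iff.2 ((W.ne_zero_iff).2 h0)
    rw [e, map_mul]
    calc W ((ι ^ k) (ι x / x)) * W ((ι ^ k) x) < 1 * W ((ι ^ k) x) :=
          mul_lt_mul_of_pos_right (h1 k) h3
      _ = W ((ι ^ k) x) := one_mul _
  have h3 : ∀ k : ℕ, W ((ι ^ k) x) ≤ W x := by
    intro k
    induction k with
    | zero => exact le_of_eq (by rw [pow_zero]; rfl)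
    | succ k ih => exact (h2 k).le.trans ih
  have hfin : IsOfFinOrder ι := isOfFinOrder_of_finite ι
  have hpos : 0 < orderOf ι := hfin.orderOf_pos
  obtain ⟨m, hm⟩ : ∃ m, orderOf ι = m + 1 := ⟨orderOf ι - 1, by omega⟩
  have h4 := h2 m
  rw [← hm, pow_orderOf_eq_one] at h4
  exact absurd (h4.trans_le (h3 m)) (lt_irrefl _)

/-- inertia preserves the valuation -/
theorem IVal.inert_val_eq (h : IVal W L) {ι : F ≃ₐ[ℚ] F} (hI : Inert ι L) (x : F) :
    W (ι x) = W x := by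
  by_cases hx : x = 0
  · rw [hx, map_zero, map_zero]
  have hW : 0 < W x := zero_lt_iff.2 ((W.ne_zero_iff).2 hx)
  rcases lt_trichotomy (W (ι x)) (W x) with h1 | h1 | h1
  · exfalso
    apply inert_aux h hI hx
    rw [map_div₀, div_lt_one₀ hW]
    exact h1
  · exact h1
  · exfalso
    apply inert_aux h hI (inv_ne_zero hx)
    rw [map_inv₀, map_div₀, map_inv₀, map_inv₀, div_inv_eq_mul, inv_mul_lt_one₀ (hW.trans h1)]
    exact h1

end inert

/-- The Galois data over `ℚ` with a valuation at each ramified prime. -/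
structure RDat (K F : Type*) [Field K] [NumberField K] [Field F] [NumberField F] [Algebra K F]
    (a d : ℕ) (s : K) (S : 𝓞 K) (τ : 𝓞 K ≃+* 𝓞 K) (ζ w : F) (X Y V U : Ideal (𝓞 K) → F)
    (κ : F ≃ₐ[ℚ] F) : Prop where
  id : IDat K F a d s S τ ζ w X Y V U κ
  ram : ∀ l : ℕ, l.Prime → l ∣ a → ∀ L : Ideal (𝓞 F), L.IsPrime → (l : 𝓞 F) ∈ L →
    ∀ q : Ideal (𝓞 K), q = L.comap (algebraMap (𝓞 K) (𝓞 F)) →
      ∃ (Γ : Type) (_ : LinearOrderedCommGroupWithZero Γ) (W : Valuation F Γ),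
        (∀ x : 𝓞 F, W (algebraMap (𝓞 F) F x) ≤ 1) ∧
        (∀ x : 𝓞 F, W (algebraMap (𝓞 F) F x) < 1 ↔ x ∈ L) ∧ W 2 = 1 ∧
        (∀ ι : F ≃ₐ[ℚ] F, Inert ι L →
          (∀ x : F, W (ι x) = W x) ∧ ∀ x : F, W x ≤ 1 → W (ι x - x) < 1) ∧
        ∀ c : Ideal (𝓞 K), OddI c →
          W (V c) = 1 ∧ W (U c) = 1 ∧ W (1 + U c) = 1 ∧ W (X c) = 1 ∧ W (Y c) = 1 ∧
          W (V (q * c) - V c ^ l) < 1 ∧ W (U (q * c) - U c ^ l) < 1 ∧
          W (X (q * c) - X c ^ l) < 1 ∧ W (Y (q * c) - Y c ^ l) < 1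

theorem norm_ram {K : Type u} [Field K] [NumberField K] {a : ℕ} {s : K} (hb : Base5 K a s)
    {S : 𝓞 K} (hS : algebraMap (𝓞 K) K S = s) {l : ℕ} (hl : l.Prime) (hla : l ∣ a)
    {q : Ideal (𝓞 K)} (hq : q.IsPrime) (hlq : (l : 𝓞 K) ∈ q) : Ideal.absNorm q = l := by
  rw [(Rf.rI_prime hb hS hl hla).2 q hq hlq]
  exact Rf.rI_norm hb hS hla

theorem rdat_of' {K : Type u} {F : Type*} [Field K] [NumberField K] [Algebra K ℂ] [Field F]
    [NumberField F] [Algebra K F] [Algebra F ℂ] [IsScalarTower K F ℂ] [IsGalois K F]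
    [IsGalois ℚ F] {a : ℕ} {s : K} (hb : Base5 K a s)
    {S : 𝓞 K} (hS : algebraMap (𝓞 K) K S = s) {τ : 𝓞 K ≃+* 𝓞 K} (hτ : τ S = -S)
    {d : ℕ} (hd : d ≠ 0) {ζ0 w : F} {z k v vm : Ideal (𝓞 K) → F}
    (h0 : ICtx K F s d ζ0 w z k v vm) : ∃ (ζ : F) (κ : F ≃ₐ[ℚ] F),
      ICtx K F s d ζ w z k v vm ∧
      RDat K F a d s S τ ζ w (fun c => (1 + z c) / k c)
        (fun c => 2 * ((1 + z c) / k c) / (v c * z c)) v (fun c => 2 / z c ^ 2 - 1) κ ∧
      (∀ x : F, algebraMap F ℂ (κ x) = (starRingEnd ℂ) (algebraMap F ℂ x)) ∧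
      vm 1 = -(ζ ^ 2 * v 1) := by
  obtain ⟨ζ, κ, h, hκ, hv1, hI⟩ := rdat_full hb hS hτ hd h0
  refine ⟨ζ, κ, h, ⟨hI, ?_⟩, hκ, hv1⟩
  intro l hl hla L hL hlL q hq
  have hl2 : l ≠ 2 := by
    rintro rfl
    obtain ⟨c, hc⟩ := hla
    have := hb.mod
    omega
  have hqp : q.IsPrime := by
    rw [hq]
    exact Ideal.IsPrime.comap _
  have hlq : (l : 𝓞 K) ∈ q := by
    rw [hq, Ideal.mem_comap, map_natCast]
    exact hlL
  have hql : Ideal.absNorm (L.comap (algebraMap (𝓞 K) (𝓞 F))) = l := by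
    rw [← hq]
    exact norm_ram hb hS hl hla hqp hlq
  obtain ⟨Γ, hΓ, W, hW⟩ := ctx_val hb h.dc hl hl2 L hL hql
  have e1 : ∀ c, OddI c → z c ^ 2 = 1 + k c ^ 2 := by
    intro c hc
    apply (algebraMap F ℂ).injective
    simp only [map_pow, map_add, map_one, h.dc.hz c hc, h.dc.hk c hc]
    exact fz_sq (fr_MM hb hc)
  have hR := hW.rval hl hl2 e1
  subst hq
  refine ⟨Γ, hΓ, W, hR.iv.le1, hR.iv.lt1, hR.two, fun ι hι => ?_, fun c hc => ?_⟩
  · exact ⟨hR.iv.inert_val_eq hι, (hR.iv.inert hι).1⟩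
  · exact ⟨hR.uV c hc, hR.uU c hc, hR.uU1 c hc, hR.uX c hc, hR.uY c hc, hR.fV c hc, hR.fU c hc,
      hR.fX c hc, hR.fY c hc⟩

end Pool.Agent.Work.MP_8efaaa_nt.K5
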