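import Mathlib
import Pool.Agent.Work.MP_8efaaa_nt.R.DFld
import Pool.Agent.Work.MP_8efaaa_nt.R.CInt
import Pool.Agent.Work.MP_8efaaa_nt.N5.Defs
import Pool.Agent.Work.MP_8efaaa_nt.N5.BQm
import Pool.Agent.Work.MP_8efaaa_nt.N5.CFin

/-!
# K5/RCtx: the field of the values and of finitely many given algebraic numbers

As `exists_ictx` (N5/CCtx), the field `F` also contains the numbers of a given finite set.
-/

set_option autoImplicit false

namespace Pool.Agent.Work.MP_8efaaa_nt.K5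

open NumberField Pool.Agent.Work.CM Pool.Agent.Work.MP_8efaaa_nt.R Pool.Agent.Work.MP_8efaaa_nt.N5

variable {K : Type*} [Field K] [NumberField K] [Algebra K ℂ] {a : ℕ} {s : K}

theorem exists_ictx' (hb : Base5 K a s) (d : ℕ) (T' : Finset ℂ)
    (hT' : ∀ z ∈ T', IsAlgebraic K z) : ∃ (F : IntermediateField K ℂ)
    (_ : FiniteDimensional K F) (_ : IsGalois K F) (_ : IsGalois ℚ F) (ζ w : F)
    (z k v vm : Ideal (𝓞 K) → F), ICtx K F s d ζ w z k v vm ∧
      ∀ z ∈ T', ∃ y : F, algebraMap F ℂ y = z := by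
  classical
  obtain ⟨T, hT, hfin⟩ := c_fin hb
  obtain ⟨ζ, hζ⟩ := IsAlgClosed.exists_pow_nat_eq (-1 : ℂ) (n := 4) (by norm_num)
  have hζa : IsAlgebraic K ζ := by
    refine ⟨Polynomial.X ^ 4 + 1, ?_, ?_⟩
    · exact (Polynomial.monic_X_pow_add_C (1 : K) (n := 4) (by norm_num)).ne_zero
    · simp [hζ]
  have hd2 : (((Real.sqrt (d : ℝ) : ℝ) : ℂ)) ^ 2 = (d : ℂ) := by
    rw [← Complex.ofReal_pow, Real.sq_sqrt (Nat.cast_nonneg d)]
    simp
  have hda : IsAlgebraic K ((Real.sqrt (d : ℝ) : ℝ) : ℂ) := by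
    refine ⟨Polynomial.X ^ 2 - Polynomial.C (d : K), ?_, ?_⟩
    · exact (Polynomial.monic_X_pow_sub_C (d : K) (n := 2) (by norm_num)).ne_zero
    · simp [hd2]
  obtain ⟨F, h1, h2, h3, hF⟩ := fin_gal_rat
    (insert ζ (insert ((Real.sqrt (d : ℝ) : ℝ) : ℂ) (T ∪ T'))) (by
    intro z hz
    rcases Finset.mem_insert.1 hz with rfl | hz
    · exact hζa
    · rcases Finset.mem_insert.1 hz with rfl | hz
      · exact hda
      · rcases Finset.mem_union.1 hz with hz | hz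
        · exact hT z hz
        · exact hT' z hz)
  have hF' : ∀ z ∈ T, z ∈ F := fun z hz =>
    hF z (Finset.mem_insert_of_mem (Finset.mem_insert_of_mem (Finset.mem_union_left _ hz)))
  have hF'' : ∀ z ∈ T', z ∈ F := fun z hz =>
    hF z (Finset.mem_insert_of_mem (Finset.mem_insert_of_mem (Finset.mem_union_right _ hz)))
  have hζF : ζ ∈ F := hF ζ (Finset.mem_insert_self _ _)
  have hdF : ((Real.sqrt (d : ℝ) : ℝ) : ℂ) ∈ F :=
    hF _ (Finset.mem_insert_of_mem (Finset.mem_insert_self _ _))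
  have hvm : ∀ c : Ideal (𝓞 K), OddI c → Vm s c ∈ F := by
    intro c hc
    have hq := (qm hb hc).2.2
    have hVc : Vc s c ∈ F := hF' _ (hfin c hc).2.2
    have h4 : (Vm s c) ^ 2 = (ζ ^ 2 * Vc s c) ^ 2 := by
      rw [hq, mul_pow, ← pow_mul, hζ]
      ring
    rcases sq_eq_sq_iff_eq_or_eq_neg.1 h4 with h5 | h5
    · rw [h5]
      exact F.mul_mem (F.pow_mem hζF 2) hVc
    · rw [h5]
      exact F.neg_mem (F.mul_mem (F.pow_mem hζF 2) hVc)
  refine ⟨F, h1, h2, h3, ⟨ζ, hζF⟩, ⟨((Real.sqrt (d : ℝ) : ℝ) : ℂ), hdF⟩,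
    fun c => if h : OddI c then ⟨Zc s c, hF' _ (hfin c h).1⟩ else 0,
    fun c => if h : OddI c then ⟨Kc s c, hF' _ (hfin c h).2.1⟩ else 0,
    fun c => if h : OddI c then ⟨Vc s c, hF' _ (hfin c h).2.2⟩ else 0,
    fun c => if h : OddI c then ⟨Vm s c, hvm c h⟩ else 0,
    ⟨⟨?_, ?_, ?_, ?_, ?_⟩, ?_, ?_, ?_⟩, fun z hz => ⟨⟨z, hF'' z hz⟩, rfl⟩⟩
  · apply Subtype.ext
    simpa using hζ
  · intro c hc
    simp only [dif_pos hc]
    rfl
  · intro c hc
    simp only [dif_pos hc]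
    rfl
  · intro c hc
    simp only [dif_pos hc]
    rfl
  · refine ⟨T.preimage (Subtype.val : F → ℂ) Subtype.val_injective.injOn, fun c hc => ?_⟩
    simp only [dif_pos hc, Finset.mem_preimage]
    exact hfin c hc
  · intro c hc
    simp only [dif_pos hc]
    rfl
  · apply Subtype.ext
    simpa using hd2
  · exact Complex.conj_ofReal _

end Pool.Agent.Work.MP_8efaaa_nt.K5
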